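import Mathlib

set_option autoImplicit false

namespace Pool.Agent.H.MP_aebd38_co

open Finset Equiv

/-- The number of inversions of a permutation. -/
def inv {n : ℕ} (σ : Perm (Fin n)) : ℕ :=
  ((Finset.univ : Finset (Fin n × Fin n)).filter (fun p => p.1 < p.2 ∧ σ p.2 < σ p.1)).card

/-- The position `a + x` for `x < k`, if `a + k ≤ n`. -/
def at_ {a k n : ℕ} (h : a + k ≤ n) (x : Fin k) : Fin n := ⟨a + x.val, by omega⟩

/-- The entries in the window `a, …, a+k-1` are in the same relative order as `τ`. -/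
def HasPat {a k n : ℕ} (h : a + k ≤ n) (σ : Perm (Fin n)) (τ : Perm (Fin k)) : Prop :=
  ∀ x y : Fin k, σ (at_ h x) < σ (at_ h y) ↔ τ x < τ y

/-- `σ` contains `π` as a consecutive pattern. -/
def ContainsConsecutive {k n : ℕ} (π : Perm (Fin k)) (σ : Perm (Fin n)) : Prop :=
  ∃ (i : ℕ) (h : i + k ≤ n), HasPat h σ π

lemma at_inj {a k n : ℕ} (h : a + k ≤ n) : Function.Injective (at_ h) := by
  intro x y hxy
  have := congrArg Fin.val hxy
  simp only [at_] at this
  exact Fin.ext (by omega)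

lemma at_lt {a k n : ℕ} (h : a + k ≤ n) (x y : Fin k) : at_ h x < at_ h y ↔ x < y := by
  rw [Fin.lt_def, Fin.lt_def]; simp only [at_]; omega

def winEmb {a k n : ℕ} (h : a + k ≤ n) : Fin k ↪ Fin n := ⟨at_ h, at_inj h⟩

/-- Act by `ρ` on the positions of a window. -/
noncomputable def blk {a k n : ℕ} (h : a + k ≤ n) (ρ : Perm (Fin k)) : Perm (Fin n) :=
  Perm.viaEmbeddingHom (winEmb h) ρ

lemma blk_at {a k n : ℕ} (h : a + k ≤ n) (ρ : Perm (Fin k)) (x : Fin k) :
    blk h ρ (at_ h x) = at_ h (ρ x) :=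
  Perm.viaEmbedding_apply ρ (winEmb h) x

lemma blk_out {a k n : ℕ} (h : a + k ≤ n) (ρ : Perm (Fin k)) (x : Fin n)
    (hx : x.val < a ∨ a + k ≤ x.val) : blk h ρ x = x := by
  refine Perm.viaEmbedding_apply_of_notMem ρ (winEmb h) x ?_
  rintro ⟨y, hy⟩
  have := congrArg Fin.val hy
  have h2 : ((winEmb h) y).val = a + y.val := rfl
  rw [h2] at this
  omega

lemma exists_at {a k n : ℕ} (h : a + k ≤ n) (x : Fin n) (h1 : a ≤ x.val) (h2 : x.val < a + k) :
    ∃ y : Fin k, at_ h y = x :=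
  ⟨⟨x.val - a, by omega⟩, Fin.ext (by simp only [at_]; omega)⟩

lemma blk_mul {a k n : ℕ} (h : a + k ≤ n) (ρ τ : Perm (Fin k)) :
    blk h (ρ * τ) = blk h ρ * blk h τ := map_mul _ _ _

lemma blk_one {a k n : ℕ} (h : a + k ≤ n) : blk h (1 : Perm (Fin k)) = 1 := map_one _

/-- `blk` maps the window to itself. -/
lemma blk_in {a k n : ℕ} (h : a + k ≤ n) (ρ : Perm (Fin k)) (x : Fin n)
    (h1 : a ≤ x.val) (h2 : x.val < a + k) :
    a ≤ (blk h ρ x).val ∧ (blk h ρ x).val < a + k := by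
  obtain ⟨y, rfl⟩ := exists_at h x h1 h2
  rw [blk_at]
  simp only [at_]
  omega

lemma perm_eq_of_lt_iff {k : ℕ} (τ τ' : Perm (Fin k))
    (h : ∀ x y, τ x < τ y ↔ τ' x < τ' y) : τ = τ' := by
  have hmono : StrictMono (fun x => τ' (τ.symm x)) := by
    intro x y hxy
    apply (h _ _).mp
    simpa using hxy
  have hid : (fun x => τ' (τ.symm x)) = id := by
    have hr : Set.range (fun x => τ' (τ.symm x)) = Set.range (id : Fin k → Fin k) := by
      have hs : Function.Surjective (fun x => τ' (τ.symm x)) :=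
        τ'.surjective.comp τ.symm.surjective
      rw [hs.range_eq, Set.range_id]
    exact (StrictMono.range_inj hmono strictMono_id).mp hr
  ext x
  have := congrFun hid (τ x)
  simp only [Equiv.symm_apply_apply, id] at this
  rw [this]

lemma hasPat_unique {a k n : ℕ} (h : a + k ≤ n) (σ : Perm (Fin n)) (τ τ' : Perm (Fin k))
    (h1 : HasPat h σ τ) (h2 : HasPat h σ τ') : τ = τ' :=
  perm_eq_of_lt_iff τ τ' (fun x y => (h1 x y).symm.trans (h2 x y))

lemma hasPat_exists {a k n : ℕ} (h : a + k ≤ n) (σ : Perm (Fin n)) :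
    ∃ τ : Perm (Fin k), HasPat h σ τ := by
  let f : Fin k → Fin n := fun x => σ (at_ h x)
  have hf : Function.Injective f := fun x y hxy => at_inj h (σ.injective hxy)
  have hmono := Tuple.monotone_sort f
  have hinj : Function.Injective (f ∘ Tuple.sort f) := hf.comp (Tuple.sort f).injective
  have hs : StrictMono (f ∘ Tuple.sort f) := hmono.strictMono_of_injective hinj
  refine ⟨(Tuple.sort f)⁻¹, fun x y => ?_⟩
  have := hs.lt_iff_lt (a := (Tuple.sort f)⁻¹ x) (b := (Tuple.sort f)⁻¹ y)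
  simpa [f] using this

lemma hasPat_mul {a k n : ℕ} (h : a + k ≤ n) (σ : Perm (Fin n)) (τ ρ : Perm (Fin k))
    (hp : HasPat h σ τ) : HasPat h (σ * blk h ρ) (τ * ρ) := by
  intro x y
  simp only [Perm.mul_apply, blk_at]
  exact hp _ _

lemma hasPat_mul_iff {a k n : ℕ} (h : a + k ≤ n) (σ : Perm (Fin n)) (τ ρ : Perm (Fin k)) :
    HasPat h (σ * blk h ρ) (τ * ρ) ↔ HasPat h σ τ := by
  constructor
  · intro hp
    have := hasPat_mul h _ _ ρ⁻¹ hp
    rwa [mul_assoc, ← blk_mul, mul_inv_cancel, blk_one, mul_one, mul_assoc, mul_inv_cancel,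
      mul_one] at this
  · exact hasPat_mul h σ τ ρ

/-- Acting on a window does not change the pattern of a disjoint window. -/
lemma hasPat_other {a b k n : ℕ} (h : a + k ≤ n) (h' : b + k ≤ n)
    (hab : a + k ≤ b ∨ b + k ≤ a) (σ : Perm (Fin n)) (τ ρ : Perm (Fin k)) :
    HasPat h' (σ * blk h ρ) τ ↔ HasPat h' σ τ := by
  have : ∀ x : Fin k, blk h ρ (at_ h' x) = at_ h' x := by
    intro x
    apply blk_out
    simp only [at_]
    omega
  unfold HasPat
  simp only [Perm.mul_apply, this]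

/-- Acting by `ρ` on a sorted window adds `inv ρ` inversions. -/
lemma inv_mul_blk {a k n : ℕ} (h : a + k ≤ n) (σ : Perm (Fin n)) (ρ : Perm (Fin k))
    (hp : HasPat h σ 1) : inv (σ * blk h ρ) = inv σ + inv ρ := by
  classical
  have hsort : ∀ x y : Fin k, σ (at_ h x) < σ (at_ h y) ↔ x < y := by
    intro x y; simpa using hp x y
  let B : Fin n × Fin n → Prop := fun p =>
    (a ≤ p.1.val ∧ p.1.val < a + k) ∧ (a ≤ p.2.val ∧ p.2.val < a + k)
  unfold inv
  rw [← Finset.card_filter_add_card_filter_not (s := (Finset.univ.filter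
    (fun p : Fin n × Fin n => p.1 < p.2 ∧ (σ * blk h ρ) p.2 < (σ * blk h ρ) p.1))) B,
    ← Finset.card_filter_add_card_filter_not (s := (Finset.univ.filter
    (fun p : Fin n × Fin n => p.1 < p.2 ∧ σ p.2 < σ p.1))) B]
  -- pairs inside the window
  have hin : ((Finset.univ.filter (fun p : Fin n × Fin n =>
      p.1 < p.2 ∧ (σ * blk h ρ) p.2 < (σ * blk h ρ) p.1)).filter B).card =
      (Finset.univ.filter (fun p : Fin k × Fin k => p.1 < p.2 ∧ ρ p.2 < ρ p.1)).card := by
    symm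
    refine Finset.card_bij (fun p _ => (at_ h p.1, at_ h p.2)) ?_ ?_ ?_
    · intro p hp'
      simp only [Finset.mem_filter, Finset.mem_univ, true_and] at hp' ⊢
      refine ⟨⟨(at_lt h _ _).mpr hp'.1, ?_⟩, ?_⟩
      · simp only [Perm.mul_apply, blk_at]
        exact (hsort _ _).mpr hp'.2
      · simp only [B, at_]
        omega
    · intro p _ q _ hpq
      rw [Prod.mk.injEq] at hpq
      exact Prod.ext (at_inj h hpq.1) (at_inj h hpq.2)
    · rintro ⟨x, y⟩ hxy
      simp only [Finset.mem_filter, Finset.mem_univ, true_and] at hxy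
      obtain ⟨⟨h1, h2⟩, ⟨h3, h4⟩, ⟨h5, h6⟩⟩ := hxy
      obtain ⟨x', rfl⟩ := exists_at h x h3 h4
      obtain ⟨y', rfl⟩ := exists_at h y h5 h6
      refine ⟨(x', y'), ?_, rfl⟩
      simp only [Finset.mem_filter, Finset.mem_univ, true_and]
      simp only [Perm.mul_apply, blk_at] at h2
      exact ⟨(at_lt h _ _).mp h1, (hsort _ _).mp h2⟩
  have hin0 : ((Finset.univ.filter (fun p : Fin n × Fin n =>
      p.1 < p.2 ∧ σ p.2 < σ p.1)).filter B).card = 0 := by
    rw [Finset.card_eq_zero, Finset.filter_eq_empty_iff]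
    rintro ⟨x, y⟩ hxy ⟨⟨h3, h4⟩, ⟨h5, h6⟩⟩
    simp only [Finset.mem_filter, Finset.mem_univ, true_and] at hxy
    obtain ⟨x', rfl⟩ := exists_at h x h3 h4
    obtain ⟨y', rfl⟩ := exists_at h y h5 h6
    have h1 := (at_lt h _ _).mp hxy.1
    have h2 := (hsort _ _).mp hxy.2
    exact absurd h1 (not_lt.mpr h2.le)
  -- the other pairs
  have hkey : ∀ (ρ : Perm (Fin k)) (x y : Fin n), x < y → ¬ B (x, y) →
      blk h ρ x < blk h ρ y ∧ ¬ B (blk h ρ x, blk h ρ y) := by
    intro ρ x y hxy hB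
    simp only [B] at hB ⊢
    have hxy' : x.val < y.val := hxy
    by_cases hx : a ≤ x.val ∧ x.val < a + k
    · have hy : y.val < a ∨ a + k ≤ y.val := by
        by_contra hcon
        apply hB
        exact ⟨hx, by omega⟩
      rw [blk_out h ρ y hy]
      have := blk_in h ρ x hx.1 hx.2
      refine ⟨?_, by omega⟩
      rw [Fin.lt_def]; omega
    · rw [blk_out h ρ x (by omega)]
      by_cases hy : a ≤ y.val ∧ y.val < a + k
      · have := blk_in h ρ y hy.1 hy.2
        refine ⟨?_, by omega⟩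
        rw [Fin.lt_def]; omega
      · rw [blk_out h ρ y (by omega)]
        exact ⟨hxy, by omega⟩
  have hout : ((Finset.univ.filter (fun p : Fin n × Fin n =>
      p.1 < p.2 ∧ (σ * blk h ρ) p.2 < (σ * blk h ρ) p.1)).filter (fun p => ¬ B p)).card =
      ((Finset.univ.filter (fun p : Fin n × Fin n =>
      p.1 < p.2 ∧ σ p.2 < σ p.1)).filter (fun p => ¬ B p)).card := by
    refine Finset.card_bij (fun p _ => (blk h ρ p.1, blk h ρ p.2)) ?_ ?_ ?_
    · rintro ⟨x, y⟩ hxy
      simp only [Finset.mem_filter, Finset.mem_univ, true_and] at hxy ⊢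
      obtain ⟨⟨h1, h2⟩, h3⟩ := hxy
      have := hkey ρ x y h1 h3
      exact ⟨⟨this.1, h2⟩, this.2⟩
    · rintro ⟨x, y⟩ _ ⟨x', y'⟩ _ hpq
      rw [Prod.mk.injEq] at hpq
      exact Prod.ext ((blk h ρ).injective hpq.1) ((blk h ρ).injective hpq.2)
    · rintro ⟨x, y⟩ hxy
      simp only [Finset.mem_filter, Finset.mem_univ, true_and] at hxy
      obtain ⟨⟨h1, h2⟩, h3⟩ := hxy
      have h4 := hkey ρ⁻¹ x y h1 h3
      have hcancel : ∀ z, blk h ρ (blk h ρ⁻¹ z) = z := by
        intro z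
        rw [← Perm.mul_apply, ← blk_mul, mul_inv_cancel, blk_one, Perm.one_apply]
      refine ⟨(blk h ρ⁻¹ x, blk h ρ⁻¹ y), Finset.mem_filter.mpr
        ⟨Finset.mem_filter.mpr ⟨Finset.mem_univ _, h4.1, ?_⟩, h4.2⟩, ?_⟩
      · show σ (blk h ρ (blk h ρ⁻¹ y)) < σ (blk h ρ (blk h ρ⁻¹ x))
        rw [hcancel, hcancel]
        exact h2
      · show (blk h ρ (blk h ρ⁻¹ x), blk h ρ (blk h ρ⁻¹ y)) = (x, y)
        rw [hcancel, hcancel]
  rw [hin, hin0, hout]
  omega

end Pool.Agent.H.MP_aebd38_co
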