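import Mathlib
import Pool.Agent.H.MP_aebd38_co.Window

set_option autoImplicit false

namespace Pool.Agent.H.MP_aebd38_co

open Finset Equiv

/-- The number of permutations of `Fin n` with `m` inversions (`m` an integer). -/
noncomputable def A (n : ℕ) (m : ℤ) : ℝ :=
  (((Finset.univ : Finset (Perm (Fin n))).filter (fun σ => (inv σ : ℤ) = m)).card : ℝ)

lemma A_nonneg (n : ℕ) (m : ℤ) : 0 ≤ A n m := by unfold A; positivity

/-- The permutation with `σ 0 = v` whose remaining entries are ordered like `τ`. -/
noncomputable def ext {n : ℕ} (v : Fin (n + 1)) (τ : Perm (Fin n)) : Perm (Fin (n + 1)) :=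
  v.cycleRange.symm * Perm.decomposeFin.symm (0, τ)

lemma ext_zero {n : ℕ} (v : Fin (n + 1)) (τ : Perm (Fin n)) : ext v τ 0 = v := by
  unfold ext
  rw [Perm.mul_apply, Perm.decomposeFin_symm_apply_zero]
  exact Fin.cycleRange_symm_zero v

lemma ext_succ {n : ℕ} (v : Fin (n + 1)) (τ : Perm (Fin n)) (x : Fin n) :
    ext v τ x.succ = v.succAbove (τ x) := by
  unfold ext
  rw [Perm.mul_apply, Perm.decomposeFin_symm_apply_succ, Equiv.swap_self, Equiv.refl_apply]
  exact Fin.cycleRange_symm_succ v _

lemma ext_bijective (n : ℕ) :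
    Function.Bijective (fun p : Fin (n + 1) × Perm (Fin n) => ext p.1 p.2) := by
  rw [Fintype.bijective_iff_injective_and_card]
  constructor
  · rintro ⟨v, τ⟩ ⟨v', τ'⟩ h
    simp only at h
    have h0 : v = v' := by
      have := congrArg (fun f : Perm (Fin (n + 1)) => f 0) h
      simpa [ext_zero] using this
    subst h0
    refine Prod.ext rfl (Equiv.ext (fun x => ?_))
    have := congrArg (fun f : Perm (Fin (n + 1)) => f x.succ) h
    simp only [ext_succ] at this
    exact Fin.succAbove_right_injective this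
  · rw [Fintype.card_prod, Fintype.card_perm, Fintype.card_perm, Fintype.card_fin,
      Fintype.card_fin, Nat.factorial_succ]

lemma inv_ext {n : ℕ} (v : Fin (n + 1)) (τ : Perm (Fin n)) :
    inv (ext v τ) = v.val + inv τ := by
  classical
  unfold inv
  rw [Finset.card_filter, Finset.card_filter, Fintype.sum_prod_type, Fintype.sum_prod_type,
    Fin.sum_univ_succ]
  congr 1
  · rw [Fin.sum_univ_succ]
    simp only [ext_zero, ext_succ, lt_self_iff_false, false_and, if_false, zero_add]
    have h1 : ∀ x : Fin n, ((0 : Fin (n + 1)) < x.succ ∧ v.succAbove (τ x) < v) ↔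
        (τ x).castSucc < v := by
      intro x
      rw [Fin.succAbove_lt_iff_castSucc_lt]
      constructor
      · exact fun h => h.2
      · exact fun h => ⟨Fin.succ_pos x, h⟩
    simp only [h1]
    rw [Equiv.sum_comp τ (fun z : Fin n => if z.castSucc < v then 1 else 0), ← Finset.card_filter]
    have h2 : (Finset.univ.filter (fun z : Fin n => z.castSucc < v)) =
        Finset.univ.filter (fun z : Fin n => z.val < v.val) := by
      ext z; simp [Fin.lt_def]
    rw [h2, Fin.card_filter_val_lt]
    omega
  · refine Finset.sum_congr rfl (fun x _ => ?_)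
    rw [Fin.sum_univ_succ]
    have h0 : ¬ ((x.succ : Fin (n + 1)) < 0 ∧ ext v τ 0 < ext v τ x.succ) := by
      rintro ⟨h, _⟩; exact absurd h (Fin.not_lt_zero _)
    rw [if_neg h0, zero_add]
    refine Finset.sum_congr rfl (fun y _ => ?_)
    simp only [ext_succ, Fin.succ_lt_succ_iff]
    exact if_congr (and_congr_right (fun _ => (Fin.strictMono_succAbove v).lt_iff_lt)) rfl rfl

lemma A_succ (n : ℕ) (m : ℤ) :
    A (n + 1) m = ∑ j ∈ Finset.range (n + 1), A n (m - j) := by
  classical
  unfold A
  rw [← Nat.cast_sum]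
  congr 1
  rw [Finset.card_filter]
  rw [← (Equiv.ofBijective _ (ext_bijective n)).sum_comp, Fintype.sum_prod_type,
    ← Fin.sum_univ_eq_sum_range (fun j => ((Finset.univ : Finset (Perm (Fin n))).filter
      (fun σ => (inv σ : ℤ) = m - (j : ℤ))).card) (n + 1)]
  refine Finset.sum_congr rfl (fun v _ => ?_)
  rw [Finset.card_filter]
  refine Finset.sum_congr rfl (fun τ _ => ?_)
  simp only [Equiv.ofBijective_apply, inv_ext]
  refine if_congr ?_ rfl rfl
  push_cast
  omega

lemma A_zero (m : ℤ) : A 0 m = if m = 0 then 1 else 0 := by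
  classical
  unfold A
  have h : ∀ σ : Perm (Fin 0), inv σ = 0 := by
    intro σ; unfold inv; simp
  by_cases hm : m = 0
  · subst hm
    simp [h]
  · rw [if_neg hm]
    have : (Finset.univ.filter (fun σ : Perm (Fin 0) => (inv σ : ℤ) = m)) = ∅ := by
      rw [Finset.filter_eq_empty_iff]
      intro σ _ h'
      rw [h] at h'
      exact hm h'.symm
    rw [this]; simp

/-! ### Log-concavity -/

/-- Log-concavity without internal zeros, for functions on `ℤ`. -/
def LC (a : ℤ → ℝ) : Prop :=
  ∀ p u v q : ℤ, p + q = u + v → p ≤ u → p ≤ v → a p * a q ≤ a u * a v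

lemma LC_of_step (b : ℤ → ℝ) (h : ∀ x y : ℤ, x ≤ y → b (x - 1) * b (y + 1) ≤ b x * b y) :
    LC b := by
  have key : ∀ (t : ℕ) (x y : ℤ), x ≤ y → b (x - t) * b (y + t) ≤ b x * b y := by
    intro t
    induction t with
    | zero => intro x y _; simp
    | succ t ih =>
      intro x y hxy
      have h1 := h (x - t) (y + t) (by omega)
      have h2 := ih x y hxy
      have e1 : x - ((t + 1 : ℕ) : ℤ) = x - t - 1 := by push_cast; ring
      have e2 : y + ((t + 1 : ℕ) : ℤ) = y + t + 1 := by push_cast; ring
      rw [e1, e2]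
      exact h1.trans h2
  intro p u v q hpq hpu hpv
  rcases le_total u v with huv | huv
  · have := key (u - p).toNat u v huv
    have e : ((u - p).toNat : ℤ) = u - p := Int.toNat_of_nonneg (by omega)
    rw [e] at this
    have e1 : u - (u - p) = p := by ring
    have e2 : v + (u - p) = q := by omega
    rwa [e1, e2] at this
  · have := key (v - p).toNat v u huv
    have e : ((v - p).toNat : ℤ) = v - p := Int.toNat_of_nonneg (by omega)
    rw [e] at this
    have e1 : v - (v - p) = p := by ring
    have e2 : u + (v - p) = q := by omega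
    rw [e1, e2] at this
    rw [mul_comm (a := b u)]
    exact this

lemma LC_window (a : ℤ → ℝ) (ha : LC a) (i : ℕ) :
    LC (fun m => ∑ j ∈ Finset.range i, a (m - j)) := by
  apply LC_of_step
  intro x y hxy
  set b : ℤ → ℝ := fun m => ∑ j ∈ Finset.range i, a (m - j) with hb
  -- telescoping relations
  have hstep : ∀ m : ℤ, b (m + 1) = b m + a (m + 1) - a (m + 1 - i) := by
    intro m
    simp only [hb]
    have h1 : ∑ j ∈ Finset.range i, a (m + 1 - j) + a (m + 1 - i) =
        ∑ j ∈ Finset.range (i + 1), a (m + 1 - j) := by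
      rw [Finset.sum_range_succ]
    have h2 : ∑ j ∈ Finset.range (i + 1), a (m + 1 - j) =
        ∑ j ∈ Finset.range i, a (m - j) + a (m + 1) := by
      rw [Finset.sum_range_succ']
      congr 1
      · refine Finset.sum_congr rfl (fun j _ => ?_)
        congr 1; push_cast; ring
      · simp
    linarith
  have hx : b (x - 1) = b x - a x + a (x - i) := by
    have := hstep (x - 1)
    have e : x - 1 + 1 = x := by ring
    rw [e] at this
    linarith
  have hy := hstep y
  have h1 : a (y + 1) * b x ≤ a x * b (y + 1) := by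
    simp only [hb]
    rw [Finset.mul_sum, Finset.mul_sum]
    refine Finset.sum_le_sum (fun j hj => ?_)
    rw [mul_comm (a (y + 1))]
    exact ha _ _ _ _ (by ring) (by omega) (by omega)
  have h2 : a (x - i) * b (y + 1) ≤ a (y + 1 - i) * b x := by
    simp only [hb]
    rw [Finset.mul_sum, Finset.mul_sum]
    refine Finset.sum_le_sum (fun j hj => ?_)
    rw [Finset.mem_range] at hj
    exact ha _ _ _ _ (by ring) (by omega) (by omega)
  show b (x - 1) * b (y + 1) ≤ b x * b y
  have e : b x * b y - b (x - 1) * b (y + 1) =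
      (a x * b (y + 1) - a (y + 1) * b x) + (a (y + 1 - i) * b x - a (x - i) * b (y + 1)) := by
    rw [hx]
    have hy' : b y = b (y + 1) - a (y + 1) + a (y + 1 - i) := by linarith
    rw [hy']
    ring
  linarith

lemma A_LC (n : ℕ) : LC (A n) := by
  induction n with
  | zero =>
    intro p u v q h hpu hpv
    rw [A_zero, A_zero, A_zero, A_zero]
    by_cases hp : p = 0
    · by_cases hq : q = 0
      · have hu : u = 0 := by omega
        have hv : v = 0 := by omega
        rw [if_pos hp, if_pos hq, if_pos hu, if_pos hv]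
      · rw [if_neg hq, mul_zero]; positivity
    · rw [if_neg hp, zero_mul]; positivity
  | succ n ih =>
    have h := LC_window (A n) ih (n + 1)
    have e : A (n + 1) = fun m => ∑ j ∈ Finset.range (n + 1), A n (m - j) := by
      funext m; exact A_succ n m
    rw [e]; exact h

/-! ### Support, symmetry, unimodality, ratio bound -/

lemma A_neg (n : ℕ) (m : ℤ) (hm : m < 0) : A n m = 0 := by
  unfold A
  have : (Finset.univ.filter (fun σ : Perm (Fin n) => (inv σ : ℤ) = m)) = ∅ := by
    rw [Finset.filter_eq_empty_iff]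
    intro σ _ h
    omega
  rw [this]; simp

lemma A_pos (n : ℕ) (m : ℤ) (h0 : 0 ≤ m) (h1 : m ≤ n.choose 2) : 0 < A n m := by
  induction n generalizing m with
  | zero =>
    rw [A_zero, if_pos]
    · norm_num
    · simp at h1; omega
  | succ n ih =>
    rw [A_succ]
    have hch : ((n + 1).choose 2 : ℤ) = n.choose 2 + n := by
      rw [Nat.choose_succ_succ' n 1]
      push_cast
      rw [Nat.choose_one_right]; ring
    rw [hch] at h1
    refine Finset.sum_pos' (fun j _ => A_nonneg _ _) ?_
    by_cases hm : m ≤ n.choose 2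
    · exact ⟨0, by simp, by simpa using ih m h0 hm⟩
    · refine ⟨(m - n.choose 2).toNat, ?_, ?_⟩
      · rw [Finset.mem_range]; omega
      · have e : ((m - n.choose 2).toNat : ℤ) = m - n.choose 2 :=
          Int.toNat_of_nonneg (by omega)
        rw [e]
        refine ih _ (by omega) (by omega)

lemma card_pairs (n : ℕ) :
    (Finset.univ.filter (fun p : Fin n × Fin n => p.1 < p.2)).card = n.choose 2 := by
  rw [Finset.card_filter, Fintype.sum_prod_type_right]
  have h : ∀ y : Fin n, (∑ x : Fin n, if x < y then 1 else 0) = y.val := by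
    intro y
    rw [← Finset.card_filter]
    have : (Finset.univ.filter (fun x : Fin n => x < y)) =
        Finset.univ.filter (fun x : Fin n => x.val < y.val) := by
      ext z; simp only [Finset.mem_filter, Finset.mem_univ, true_and]; exact Iff.rfl
    rw [this, Fin.card_filter_val_lt]
    omega
  simp only [h]
  rw [Fin.sum_univ_eq_sum_range (fun i => i) n, Finset.sum_range_id, Nat.choose_two_right]

/-- Complement: `inv (rev ∘ σ) + inv σ = n choose 2`. -/
lemma inv_rev {n : ℕ} (σ : Perm (Fin n)) : inv (Fin.revPerm * σ) + inv σ = n.choose 2 := by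
  classical
  rw [← card_pairs n]
  unfold inv
  rw [← Finset.card_union_of_disjoint]
  · congr 1
    ext ⟨x, y⟩
    simp only [Finset.mem_union, Finset.mem_filter, Finset.mem_univ, true_and, Perm.mul_apply,
      Fin.revPerm_apply, Fin.rev_lt_rev]
    constructor
    · rintro (⟨h, _⟩ | ⟨h, _⟩) <;> exact h
    · intro h
      rcases lt_trichotomy (σ x) (σ y) with h' | h' | h'
      · left; exact ⟨h, h'⟩
      · exact absurd (σ.injective h') (ne_of_lt h)
      · right; exact ⟨h, h'⟩
  · rw [Finset.disjoint_filter]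
    rintro ⟨x, y⟩ _ ⟨_, h1⟩ ⟨_, h2⟩
    simp only [Perm.mul_apply, Fin.revPerm_apply, Fin.rev_lt_rev] at h1
    exact absurd h1 (not_lt.mpr h2.le)

lemma inv_le {n : ℕ} (σ : Perm (Fin n)) : inv σ ≤ n.choose 2 := by
  have := inv_rev σ; omega

lemma A_symm (n : ℕ) (m : ℤ) : A n (n.choose 2 - m) = A n m := by
  classical
  unfold A
  congr 1
  refine Finset.card_bij (fun σ _ => Fin.revPerm * σ) ?_ ?_ ?_
  · intro σ hσ
    simp only [Finset.mem_filter, Finset.mem_univ, true_and] at hσ ⊢
    have := inv_rev σ
    omega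
  · intro σ _ τ _ h
    exact mul_left_cancel h
  · intro τ hτ
    simp only [Finset.mem_filter, Finset.mem_univ, true_and] at hτ
    refine ⟨Fin.revPerm * τ, ?_, ?_⟩
    · simp only [Finset.mem_filter, Finset.mem_univ, true_and]
      have := inv_rev τ
      omega
    · ext x; simp [Perm.mul_apply]

lemma A_le_of_le_half (n : ℕ) (m : ℤ) (hm : 2 * m ≤ n.choose 2) : A n (m - 1) ≤ A n m := by
  have h := A_LC n (m - 1) m (n.choose 2 - m) (n.choose 2 - (m - 1)) (by ring) (by omega)
    (by omega)
  rw [A_symm, A_symm] at h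
  exact abs_le_of_sq_le_sq' (by nlinarith) (A_nonneg n m) |>.2

/-- `m · I_n(m) ≤ (n + m) · I_n(m-1)`. -/
lemma A_ratio (n : ℕ) (m : ℤ) : (m : ℝ) * A n m ≤ (n + m) * A n (m - 1) := by
  induction n generalizing m with
  | zero =>
    rw [A_zero, A_zero]
    by_cases hm : m = 0
    · subst hm; simp
    · rw [if_neg hm]
      by_cases hm1 : m - 1 = 0
      · rw [if_pos hm1]
        have : m = 1 := by omega
        subst this; norm_num
      · rw [if_neg hm1]; simp
  | succ n ih =>
    rw [A_succ, A_succ]
    -- split `m = (m - j) + j`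
    have h1 : (m : ℝ) * ∑ j ∈ Finset.range (n + 1), A n (m - j) =
        ∑ j ∈ Finset.range (n + 1), ((m - j : ℤ) : ℝ) * A n (m - j) +
        ∑ j ∈ Finset.range (n + 1), (j : ℝ) * A n (m - j) := by
      rw [Finset.mul_sum, ← Finset.sum_add_distrib]
      refine Finset.sum_congr rfl (fun j _ => ?_)
      push_cast; ring
    have h2 : ∑ j ∈ Finset.range (n + 1), ((m - j : ℤ) : ℝ) * A n (m - j) ≤
        ∑ j ∈ Finset.range (n + 1), ((n : ℝ) + ((m - j : ℤ) : ℝ)) * A n (m - 1 - j) := by
      refine Finset.sum_le_sum (fun j _ => ?_)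
      have := ih (m - j)
      have e : m - j - 1 = m - 1 - (j : ℤ) := by ring
      rwa [e] at this
    have h3 : ∑ j ∈ Finset.range (n + 1), (j : ℝ) * A n (m - j) =
        ∑ j ∈ Finset.range n, ((j : ℝ) + 1) * A n (m - 1 - j) := by
      rw [Finset.sum_range_succ']
      simp only [Nat.cast_zero, zero_mul, add_zero]
      refine Finset.sum_congr rfl (fun j _ => ?_)
      have e : m - ((j + 1 : ℕ) : ℤ) = m - 1 - (j : ℤ) := by push_cast; ring
      rw [e]; push_cast; ring
    have h4 : ∑ j ∈ Finset.range n, ((j : ℝ) + 1) * A n (m - 1 - j) ≤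
        ∑ j ∈ Finset.range (n + 1), ((j : ℝ) + 1) * A n (m - 1 - j) := by
      rw [Finset.sum_range_succ]
      have : 0 ≤ ((n : ℝ) + 1) * A n (m - 1 - n) := mul_nonneg (by positivity) (A_nonneg _ _)
      linarith
    have h5 : ((n + 1 : ℕ) + (m : ℝ)) * ∑ j ∈ Finset.range (n + 1), A n (m - 1 - j) =
        ∑ j ∈ Finset.range (n + 1), ((n : ℝ) + ((m - j : ℤ) : ℝ)) * A n (m - 1 - j) +
        ∑ j ∈ Finset.range (n + 1), ((j : ℝ) + 1) * A n (m - 1 - j) := by
      rw [Finset.mul_sum, ← Finset.sum_add_distrib]
      refine Finset.sum_congr rfl (fun j _ => ?_)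
      push_cast; ring
    rw [h1, h5]
    linarith

end Pool.Agent.H.MP_aebd38_co
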