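import Mathlib
import Pool.Agent.H.MP_aebd38_co.Mahonian

set_option autoImplicit false

namespace Pool.Agent.H.MP_aebd38_co

open Finset Equiv

/-! ### Fibres over the pattern of one window -/

/-- The pattern of the window. -/
noncomputable def pat {a k n : ℕ} (h : a + k ≤ n) (σ : Perm (Fin n)) : Perm (Fin k) :=
  Classical.choose (hasPat_exists h σ)

lemma pat_spec {a k n : ℕ} (h : a + k ≤ n) (σ : Perm (Fin n)) : HasPat h σ (pat h σ) :=
  Classical.choose_spec (hasPat_exists h σ)

lemma hasPat_iff {a k n : ℕ} (h : a + k ≤ n) (σ : Perm (Fin n)) (τ : Perm (Fin k)) :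
    HasPat h σ τ ↔ pat h σ = τ := by
  constructor
  · intro hp; exact hasPat_unique h σ _ _ (pat_spec h σ) hp
  · rintro rfl; exact pat_spec h σ

/-- `P` does not change when the window is rearranged. -/
def Invt {a k n : ℕ} (h : a + k ≤ n) (P : Perm (Fin n) → Prop) : Prop :=
  ∀ (σ : Perm (Fin n)) (ρ : Perm (Fin k)), P (σ * blk h ρ) ↔ P σ

open Classical in
/-- Weighted shift: rearranging the window from sorted to `τ`. -/
lemma sum_shift {a k n : ℕ} (h : a + k ≤ n) (P : Perm (Fin n) → Prop) (hP : Invt h P)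
    (τ : Perm (Fin k)) (f : ℕ → ℝ) :
    ∑ σ ∈ Finset.univ.filter (fun σ => P σ ∧ HasPat h σ τ), f (inv σ) =
      ∑ σ ∈ Finset.univ.filter (fun σ => P σ ∧ HasPat h σ 1), f (inv σ + inv τ) := by
  symm
  refine Finset.sum_bij (fun σ _ => σ * blk h τ) ?_ ?_ ?_ ?_
  · intro σ hσ
    simp only [Finset.mem_filter, Finset.mem_univ, true_and] at hσ ⊢
    refine ⟨(hP σ τ).mpr hσ.1, ?_⟩
    have := hasPat_mul h σ 1 τ hσ.2
    rwa [one_mul] at this
  · intro σ _ σ' _ h'
    exact mul_right_cancel h'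
  · intro σ hσ
    simp only [Finset.mem_filter, Finset.mem_univ, true_and] at hσ
    refine ⟨σ * blk h τ⁻¹, ?_, ?_⟩
    · simp only [Finset.mem_filter, Finset.mem_univ, true_and]
      refine ⟨(hP σ _).mpr hσ.1, ?_⟩
      have := hasPat_mul h σ τ τ⁻¹ hσ.2
      rwa [mul_inv_cancel] at this
    · rw [mul_assoc, ← blk_mul, inv_mul_cancel, blk_one, mul_one]
  · intro σ hσ
    simp only [Finset.mem_filter, Finset.mem_univ, true_and] at hσ
    rw [inv_mul_blk h σ τ hσ.2]

open Classical in
lemma sum_fiber {a k n : ℕ} (h : a + k ≤ n) (P : Perm (Fin n) → Prop) (w : Perm (Fin n) → ℝ) :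
    ∑ σ ∈ Finset.univ.filter P, w σ =
      ∑ τ : Perm (Fin k), ∑ σ ∈ Finset.univ.filter (fun σ => P σ ∧ HasPat h σ τ), w σ := by
  rw [← Finset.sum_fiberwise (Finset.univ.filter P) (pat h) w]
  refine Finset.sum_congr rfl (fun τ _ => ?_)
  rw [Finset.filter_filter]
  refine Finset.sum_congr ?_ (fun _ _ => rfl)
  ext σ
  simp only [Finset.mem_filter, Finset.mem_univ, true_and]
  rw [hasPat_iff]

/-! ### Avoiding `π` in disjoint windows, weighted by `q^inv` -/

lemma win_le {k n j : ℕ} (hj : j < n / k) : j * k + k ≤ n := by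
  have h1 : (j + 1) * k ≤ n / k * k := Nat.mul_le_mul_right k hj
  have h2 : n / k * k ≤ n := Nat.div_mul_le_self n k
  have h3 : (j + 1) * k = j * k + k := by ring
  omega

/-- No window among the first `J` has pattern `π`. -/
def Avoid {k : ℕ} (n : ℕ) (π : Perm (Fin k)) (J : ℕ) (σ : Perm (Fin n)) : Prop :=
  ∀ (j : ℕ), j < J → ∀ h : j * k + k ≤ n, ¬ HasPat h σ π

lemma avoid_invt {k n : ℕ} (π : Perm (Fin k)) (J : ℕ) (h : J * k + k ≤ n) :
    Invt h (Avoid n π J) := by
  intro σ ρ
  unfold Avoid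
  refine forall_congr' (fun j => forall_congr' (fun hj => forall_congr' (fun h' => ?_)))
  rw [hasPat_other h h' ?_ σ π ρ]
  right
  have : (j + 1) * k ≤ J * k := Nat.mul_le_mul_right k hj
  have h3 : (j + 1) * k = j * k + k := by ring
  omega

open Classical in
noncomputable def Z {k : ℕ} (n : ℕ) (π : Perm (Fin k)) (q : ℝ) (J : ℕ) : ℝ :=
  ∑ σ ∈ Finset.univ.filter (Avoid n π J), q ^ inv σ

lemma Z_step {k n : ℕ} (π : Perm (Fin k)) (q : ℝ) (hq0 : 0 < q) (hq1 : q ≤ 1) (J : ℕ)
    (h : J * k + k ≤ n) :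
    Z n π q (J + 1) ≤ (1 - q ^ inv π / k.factorial) * Z n π q J := by
  classical
  set c : ℝ := ∑ σ ∈ Finset.univ.filter (fun σ => Avoid n π J σ ∧ HasPat h σ 1), q ^ inv σ with hc
  have hc0 : 0 ≤ c := Finset.sum_nonneg (fun _ _ => by positivity)
  have hfib : ∀ τ : Perm (Fin k),
      ∑ σ ∈ Finset.univ.filter (fun σ => Avoid n π J σ ∧ HasPat h σ τ), q ^ inv σ =
        q ^ inv τ * c := by
    intro τ
    rw [sum_shift h _ (avoid_invt π J h) τ (fun i => q ^ i), hc, Finset.mul_sum]
    refine Finset.sum_congr rfl (fun σ _ => ?_)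
    rw [pow_add]; ring
  have hZ : Z n π q J = ∑ τ : Perm (Fin k), q ^ inv τ * c := by
    unfold Z
    rw [sum_fiber h]
    exact Finset.sum_congr rfl (fun τ _ => hfib τ)
  have hsplit : Z n π q J = Z n π q (J + 1) + q ^ inv π * c := by
    rw [← hfib π]
    unfold Z
    have hdis : Disjoint (Finset.univ.filter (Avoid n π (J + 1)))
        (Finset.univ.filter (fun σ => Avoid n π J σ ∧ HasPat h σ π)) := by
      rw [Finset.disjoint_filter]
      intro σ _ h1 h2
      exact h1 J (Nat.lt_succ_self J) h h2.2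
    rw [← Finset.sum_union hdis]
    refine Finset.sum_congr ?_ (fun _ _ => rfl)
    ext σ
    simp only [Finset.mem_union, Finset.mem_filter, Finset.mem_univ, true_and]
    constructor
    · intro h1
      by_cases h2 : HasPat h σ π
      · right; exact ⟨h1, h2⟩
      · left
        intro j hj h'
        rcases Nat.lt_succ_iff_lt_or_eq.mp hj with h3 | h3
        · exact h1 j h3 h'
        · subst h3; exact h2
    · rintro (h1 | h1)
      · exact fun j hj h' => h1 j (Nat.lt_succ_of_lt hj) h'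
      · exact h1.1
  have hle : Z n π q J ≤ k.factorial * c := by
    rw [hZ]
    calc ∑ τ : Perm (Fin k), q ^ inv τ * c ≤ ∑ τ : Perm (Fin k), 1 * c := by
          refine Finset.sum_le_sum (fun τ _ => ?_)
          exact mul_le_mul_of_nonneg_right (pow_le_one₀ hq0.le hq1) hc0
      _ = k.factorial * c := by
          rw [Finset.sum_const, Finset.card_univ, Fintype.card_perm, Fintype.card_fin,
            nsmul_eq_mul, one_mul]
  have hf : (0 : ℝ) < k.factorial := by exact_mod_cast Nat.factorial_pos k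
  have h1 : Z n π q J / k.factorial ≤ c := by
    rw [div_le_iff₀ hf]; linarith
  have h2 : q ^ inv π * (Z n π q J / k.factorial) ≤ q ^ inv π * c :=
    mul_le_mul_of_nonneg_left h1 (by positivity)
  have e : (1 - q ^ inv π / k.factorial) * Z n π q J =
      Z n π q J - q ^ inv π * (Z n π q J / k.factorial) := by ring
  rw [e]
  linarith

lemma Z_nonneg {k n : ℕ} (π : Perm (Fin k)) (q : ℝ) (hq0 : 0 < q) (J : ℕ) : 0 ≤ Z n π q J :=
  Finset.sum_nonneg (fun _ _ => by positivity)

lemma Z_bound {k n : ℕ} (π : Perm (Fin k)) (q : ℝ) (hq0 : 0 < q) (hq1 : q ≤ 1) (J : ℕ)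
    (hJ : J ≤ n / k) :
    Z n π q J ≤ (1 - q ^ inv π / k.factorial) ^ J * Z n π q 0 := by
  have hf : (1 : ℝ) ≤ k.factorial := by exact_mod_cast Nat.factorial_pos k
  have h01 : 0 ≤ 1 - q ^ inv π / k.factorial := by
    have h1 : q ^ inv π ≤ 1 := pow_le_one₀ hq0.le hq1
    have : q ^ inv π / k.factorial ≤ 1 := by
      rw [div_le_one (by linarith)]; linarith
    linarith
  induction J with
  | zero => simp
  | succ J ih =>
    have h := win_le (k := k) (n := n) (j := J) (by omega)
    calc Z n π q (J + 1) ≤ (1 - q ^ inv π / k.factorial) * Z n π q J :=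
          Z_step π q hq0 hq1 J h
      _ ≤ (1 - q ^ inv π / k.factorial) * ((1 - q ^ inv π / k.factorial) ^ J * Z n π q 0) :=
          mul_le_mul_of_nonneg_left (ih (by omega)) h01
      _ = _ := by ring

lemma Z_zero {k n : ℕ} (π : Perm (Fin k)) (q : ℝ) :
    Z n π q 0 = ∑ j ∈ Finset.range (n.choose 2 + 1), A n j * q ^ j := by
  classical
  unfold Z
  have h1 : Finset.univ.filter (Avoid n π 0) = (Finset.univ : Finset (Perm (Fin n))) := by
    rw [Finset.filter_eq_self]
    intro σ _ j hj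
    omega
  rw [h1]
  rw [← Finset.sum_fiberwise_of_maps_to (s := (Finset.univ : Finset (Perm (Fin n))))
    (t := Finset.range (n.choose 2 + 1)) (g := inv)
    (fun σ _ => Finset.mem_range.mpr (Nat.lt_succ_of_le (inv_le σ)))]
  refine Finset.sum_congr rfl (fun j _ => ?_)
  unfold A
  rw [Finset.sum_congr rfl (g := fun _ => q ^ j)]
  · rw [Finset.sum_const, nsmul_eq_mul]
    congr 3
    ext σ
    simp only [Finset.mem_filter, Finset.mem_univ, true_and]
    exact ⟨fun h => by rw [h], fun h => by exact_mod_cast h⟩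
  · intro σ hσ
    rw [(Finset.mem_filter.mp hσ).2]

/-! ### The mode -/

lemma mode (n m : ℕ) (hm1 : 1 ≤ m) (hm : m ≤ n.choose 2) (j : ℕ) :
    A n j * (A n (m - 1 : ℤ) / A n m) ^ j ≤ A n m * (A n (m - 1 : ℤ) / A n m) ^ m := by
  have hA : 0 < A n m := A_pos n m (by omega) (by exact_mod_cast hm)
  have hA' : 0 < A n (m - 1 : ℤ) := A_pos n _ (by omega) (by omega)
  set q := A n (m - 1 : ℤ) / A n m with hq
  have hq0 : 0 < q := div_pos hA' hA
  have hup : ∀ i : ℕ, A n ((m + i : ℕ) : ℤ) * q ^ (m + i) ≤ A n m * q ^ m := by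
    intro i
    induction i with
    | zero => simp
    | succ i ih =>
      refine le_trans ?_ ih
      have h := A_LC n (m - 1) ((m + i : ℕ) : ℤ) m ((m + i + 1 : ℕ) : ℤ)
        (by push_cast; ring) (by push_cast; omega) (by omega)
      have h2 : A n ((m + i + 1 : ℕ) : ℤ) * q ≤ A n ((m + i : ℕ) : ℤ) := by
        rw [hq, ← mul_div_assoc, div_le_iff₀ hA]
        linarith
      have e : q ^ (m + (i + 1)) = q ^ (m + i) * q := by rw [← pow_succ]; rfl
      have e2 : ((m + (i + 1) : ℕ) : ℤ) = ((m + i + 1 : ℕ) : ℤ) := by push_cast; ring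
      rw [e, e2]
      calc A n ((m + i + 1 : ℕ) : ℤ) * (q ^ (m + i) * q)
          = (A n ((m + i + 1 : ℕ) : ℤ) * q) * q ^ (m + i) := by ring
        _ ≤ A n ((m + i : ℕ) : ℤ) * q ^ (m + i) :=
          mul_le_mul_of_nonneg_right h2 (by positivity)
  have hdown : ∀ i : ℕ, i ≤ m → A n ((m - i : ℕ) : ℤ) * q ^ (m - i) ≤ A n m * q ^ m := by
    intro i
    induction i with
    | zero => intro _; simp
    | succ i ih =>
      intro hi
      refine le_trans ?_ (ih (by omega))
      obtain ⟨t, ht⟩ : ∃ t, m - i = t + 1 := ⟨m - i - 1, by omega⟩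
      have ht' : m - (i + 1) = t := by omega
      rw [ht, ht']
      have h := A_LC n t ((t + 1 : ℕ) : ℤ) (m - 1) m (by push_cast; ring) (by push_cast; omega)
        (by omega)
      have h2 : A n t ≤ A n ((t + 1 : ℕ) : ℤ) * q := by
        rw [hq, ← mul_div_assoc, le_div_iff₀ hA]
        linarith
      calc A n t * q ^ t ≤ (A n ((t + 1 : ℕ) : ℤ) * q) * q ^ t :=
            mul_le_mul_of_nonneg_right h2 (by positivity)
        _ = A n ((t + 1 : ℕ) : ℤ) * q ^ (t + 1) := by ring
  rcases le_total m j with hmj | hmj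
  · have := hup (j - m)
    rwa [show m + (j - m) = j by omega] at this
  · have := hdown (m - j) (by omega)
    rwa [show m - (m - j) = j by omega] at this

open Classical in
/-- The number of permutations with `m` inversions that do not contain `π` consecutively. -/
noncomputable def bad {k : ℕ} (n : ℕ) (π : Perm (Fin k)) (m : ℕ) : ℝ :=
  ((Finset.univ.filter (fun σ : Perm (Fin n) =>
    inv σ = m ∧ ¬ ContainsConsecutive π σ)).card : ℝ)

/-- Dense bound. -/
lemma bad_dense {k n m : ℕ} (π : Perm (Fin k)) (hm1 : 1 ≤ m) (hm : 2 * m ≤ n.choose 2) :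
    bad n π m ≤ (n.choose 2 + 1) *
      (1 - (A n (m - 1 : ℤ) / A n m) ^ inv π / k.factorial) ^ (n / k) * A n m := by
  classical
  have hA : 0 < A n m := A_pos n m (by omega) (by omega)
  have hA' : 0 < A n (m - 1 : ℤ) := A_pos n _ (by omega) (by omega)
  set q := A n (m - 1 : ℤ) / A n m with hq
  have hq0 : 0 < q := div_pos hA' hA
  have hq1 : q ≤ 1 := by
    rw [hq, div_le_one hA]
    exact A_le_of_le_half n m (by omega)
  have h1 : bad n π m * q ^ m ≤ Z n π q (n / k) := by
    unfold bad Z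
    rw [← nsmul_eq_mul, ← Finset.sum_const]
    calc ∑ σ ∈ Finset.univ.filter (fun σ : Perm (Fin n) =>
            inv σ = m ∧ ¬ ContainsConsecutive π σ), q ^ m
        = ∑ σ ∈ Finset.univ.filter (fun σ : Perm (Fin n) =>
            inv σ = m ∧ ¬ ContainsConsecutive π σ), q ^ inv σ := by
          refine Finset.sum_congr rfl (fun σ hσ => ?_)
          rw [(Finset.mem_filter.mp hσ).2.1]
      _ ≤ _ := by
          refine Finset.sum_le_sum_of_subset_of_nonneg ?_ (fun _ _ _ => by positivity)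
          intro σ hσ
          simp only [Finset.mem_filter, Finset.mem_univ, true_and] at hσ ⊢
          intro j _ h hp
          exact hσ.2 ⟨_, h, hp⟩
  have h2 := Z_bound (n := n) π q hq0 hq1 (n / k) le_rfl
  have h3 : Z n π q 0 ≤ (n.choose 2 + 1) * (A n m * q ^ m) := by
    rw [Z_zero]
    calc ∑ j ∈ Finset.range (n.choose 2 + 1), A n j * q ^ j
        ≤ ∑ j ∈ Finset.range (n.choose 2 + 1), A n m * q ^ m :=
          Finset.sum_le_sum (fun j _ => mode n m hm1 (by omega) j)
      _ = _ := by rw [Finset.sum_const, Finset.card_range, nsmul_eq_mul]; push_cast; ring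
  have hf : (1 : ℝ) ≤ k.factorial := by exact_mod_cast Nat.factorial_pos k
  have h01 : 0 ≤ 1 - q ^ inv π / k.factorial := by
    have h1 : q ^ inv π ≤ 1 := pow_le_one₀ hq0.le hq1
    have : q ^ inv π / k.factorial ≤ 1 := by
      rw [div_le_one (by linarith)]; linarith
    linarith
  have h4 : bad n π m * q ^ m ≤
      ((n.choose 2 + 1) * (1 - q ^ inv π / k.factorial) ^ (n / k) * A n m) * q ^ m := by
    calc bad n π m * q ^ m ≤ (1 - q ^ inv π / k.factorial) ^ (n / k) * Z n π q 0 := h1.trans h2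
      _ ≤ (1 - q ^ inv π / k.factorial) ^ (n / k) * ((n.choose 2 + 1) * (A n m * q ^ m)) :=
          mul_le_mul_of_nonneg_left h3 (pow_nonneg h01 _)
      _ = _ := by ring
  exact le_of_mul_le_mul_right h4 (by positivity)

end Pool.Agent.H.MP_aebd38_co
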