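import Mathlib
import Pool.Agent.H.MP_aebd38_co.Bounds

set_option autoImplicit false

namespace Pool.Agent.H.MP_aebd38_co

open Finset Equiv

open Classical in
/-- Number of `σ` with `m` inversions and a property. -/
noncomputable def cntP (n : ℕ) (m : ℤ) (P : Perm (Fin n) → Prop) : ℝ :=
  ((Finset.univ.filter (fun σ : Perm (Fin n) => P σ ∧ (inv σ : ℤ) = m)).card : ℝ)

lemma cntP_shift {a k n : ℕ} (h : a + k ≤ n) (P : Perm (Fin n) → Prop) (hP : Invt h P)
    (τ : Perm (Fin k)) (m : ℤ) :
    cntP n m (fun σ => P σ ∧ HasPat h σ τ) =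
      cntP n (m - inv τ) (fun σ => P σ ∧ HasPat h σ 1) := by
  classical
  have h1 := sum_shift h P hP τ (fun i => if (i : ℤ) = m then (1 : ℝ) else 0)
  unfold cntP
  have e1 : ((Finset.univ.filter (fun σ : Perm (Fin n) =>
      (P σ ∧ HasPat h σ τ) ∧ (inv σ : ℤ) = m)).card : ℝ) =
      ∑ σ ∈ Finset.univ.filter (fun σ => P σ ∧ HasPat h σ τ),
        (if (inv σ : ℤ) = m then (1 : ℝ) else 0) := by
    rw [← Finset.filter_filter, Finset.card_filter]
    push_cast
    rfl
  have e2 : ((Finset.univ.filter (fun σ : Perm (Fin n) =>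
      (P σ ∧ HasPat h σ 1) ∧ (inv σ : ℤ) = m - inv τ)).card : ℝ) =
      ∑ σ ∈ Finset.univ.filter (fun σ => P σ ∧ HasPat h σ 1),
        (if ((inv σ + inv τ : ℕ) : ℤ) = m then (1 : ℝ) else 0) := by
    rw [← Finset.filter_filter, Finset.card_filter]
    push_cast
    refine Finset.sum_congr rfl (fun σ _ => if_congr ?_ rfl rfl)
    omega
  convert e1.trans (h1.trans e2.symm)

lemma cntP_mono {n : ℕ} (m : ℤ) (P Q : Perm (Fin n) → Prop) (h : ∀ σ, P σ → Q σ) :
    cntP n m P ≤ cntP n m Q := by
  classical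
  unfold cntP
  have : (Finset.univ.filter (fun σ : Perm (Fin n) => P σ ∧ (inv σ : ℤ) = m)) ⊆
      Finset.univ.filter (fun σ : Perm (Fin n) => Q σ ∧ (inv σ : ℤ) = m) := by
    intro σ hσ
    simp only [Finset.mem_filter, Finset.mem_univ, true_and] at hσ ⊢
    exact ⟨h σ hσ.1, hσ.2⟩
  exact_mod_cast Finset.card_le_card this

lemma cntP_le_A {n : ℕ} (m : ℤ) (P : Perm (Fin n) → Prop) : cntP n m P ≤ A n m := by
  classical
  unfold cntP A
  have : (Finset.univ.filter (fun σ : Perm (Fin n) => P σ ∧ (inv σ : ℤ) = m)) ⊆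
      Finset.univ.filter (fun σ : Perm (Fin n) => (inv σ : ℤ) = m) := by
    intro σ hσ
    simp only [Finset.mem_filter, Finset.mem_univ, true_and] at hσ ⊢
    exact hσ.2
  exact_mod_cast Finset.card_le_card this

/-- The `j`-th window has pattern `π` (`j < r`). -/
def WinPat {k : ℕ} (n : ℕ) (π : Perm (Fin k)) (j : ℕ) (σ : Perm (Fin n)) : Prop :=
  ∃ h : j * k + k ≤ n, HasPat h σ π

lemma winPat_iff {k n j : ℕ} (h : j * k + k ≤ n) (π : Perm (Fin k)) (σ : Perm (Fin n)) :
    WinPat n π j σ ↔ HasPat h σ π := ⟨fun ⟨_, hp⟩ => hp, fun hp => ⟨h, hp⟩⟩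

lemma cnt_one {k n j : ℕ} (hj : j < n / k) (π : Perm (Fin k)) (m : ℤ) :
    cntP n m (WinPat n π j) = cntP n (m - inv π) (WinPat n (1 : Perm (Fin k)) j) := by
  have h := win_le hj
  have hP : Invt h (fun _ : Perm (Fin n) => True) := fun _ _ => Iff.rfl
  have := cntP_shift h (fun _ => True) hP π m
  simp only [true_and] at this
  have e1 : (WinPat n π j) = (fun σ => HasPat h σ π) := by
    funext σ; exact propext (winPat_iff h π σ)
  have e2 : (WinPat n (1 : Perm (Fin k)) j) = (fun σ => HasPat h σ 1) := by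
    funext σ; exact propext (winPat_iff h 1 σ)
  rw [e1, e2]
  exact this

lemma cnt_two {k n i j : ℕ} (hi : i < n / k) (hj : j < n / k) (hij : i ≠ j)
    (π : Perm (Fin k)) (m : ℤ) :
    cntP n m (fun σ => WinPat n π i σ ∧ WinPat n π j σ) ≤ A n (m - 2 * inv π) := by
  have hi' := win_le hi
  have hj' := win_le hj
  have hdis : i * k + k ≤ j * k ∨ j * k + k ≤ i * k := by
    rcases Nat.lt_or_ge i j with h | h
    · left
      have : (i + 1) * k ≤ j * k := Nat.mul_le_mul_right k h
      have h3 : (i + 1) * k = i * k + k := by ring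
      omega
    · right
      have : (j + 1) * k ≤ i * k := Nat.mul_le_mul_right k (by omega)
      have h3 : (j + 1) * k = j * k + k := by ring
      omega
  have hP1 : Invt hj' (fun σ => HasPat hi' σ π) :=
    fun σ ρ => hasPat_other hj' hi' (hdis.symm) σ π ρ
  have hP2 : Invt hi' (fun σ => HasPat hj' σ (1 : Perm (Fin k))) :=
    fun σ ρ => hasPat_other hi' hj' hdis σ 1 ρ
  have e1 : (fun σ => WinPat n π i σ ∧ WinPat n π j σ) =
      (fun σ => HasPat hi' σ π ∧ HasPat hj' σ π) := by
    funext σ; rw [winPat_iff hi', winPat_iff hj']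
  rw [e1, cntP_shift hj' _ hP1 π m]
  have e2 : (fun σ => HasPat hi' σ π ∧ HasPat hj' σ 1) =
      (fun σ => HasPat hj' σ 1 ∧ HasPat hi' σ π) := by
    funext σ; exact propext and_comm
  rw [e2, cntP_shift hi' _ hP2 π]
  have e3 : m - inv π - inv π = m - 2 * (inv π : ℤ) := by ring
  rw [e3]
  exact cntP_le_A _ _

/-! ### Sorted windows are many when there are few inversions -/

open Classical in
/-- Number of windows `j < r` with pattern `π`. -/
noncomputable def Nw {k : ℕ} (n : ℕ) (π : Perm (Fin k)) (σ : Perm (Fin n)) : ℕ :=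
  ((Finset.range (n / k)).filter (fun j => WinPat n π j σ)).card

lemma sorted_many {k n : ℕ} (σ : Perm (Fin n)) :
    n / k ≤ Nw n (1 : Perm (Fin k)) σ + inv σ := by
  classical
  unfold Nw
  have h1 := Finset.card_filter_add_card_filter_not (s := Finset.range (n / k))
    (fun j => WinPat n (1 : Perm (Fin k)) j σ)
  rw [Finset.card_range] at h1
  -- every unsorted window carries an inversion
  have hex : ∀ j ∈ (Finset.range (n / k)).filter (fun j => ¬ WinPat n (1 : Perm (Fin k)) j σ),
      ∃ p : Fin n × Fin n, (p.1 < p.2 ∧ σ p.2 < σ p.1) ∧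
        (j * k ≤ p.1.val ∧ p.1.val < j * k + k) := by
    intro j hj
    rw [Finset.mem_filter, Finset.mem_range] at hj
    have h := win_le hj.1
    by_contra hcon
    push Not at hcon
    apply hj.2
    refine ⟨h, ?_⟩
    have key : ∀ x y : Fin k, x < y → σ (at_ h x) < σ (at_ h y) := by
      intro x y hxy
      by_contra hle
      have hne : σ (at_ h y) ≠ σ (at_ h x) := by
        intro h'
        exact (ne_of_lt hxy) (at_inj h (σ.injective h')).symm
      have hlt : σ (at_ h y) < σ (at_ h x) := lt_of_le_of_ne (not_lt.mp hle) hne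
      have := hcon (at_ h x, at_ h y) ⟨(at_lt h x y).mpr hxy, hlt⟩
        (by simp only [at_]; omega)
      simp only [at_] at this
      omega
    intro x y
    simp only [Perm.one_apply]
    constructor
    · intro hlt
      rcases lt_trichotomy x y with h' | h' | h'
      · exact h'
      · subst h'; exact absurd hlt (lt_irrefl _)
      · exact absurd hlt (not_lt.mpr (key y x h').le)
    · exact key x y
  rcases Nat.eq_zero_or_pos n with hn | hn
  · have : n / k = 0 := by subst hn; exact Nat.zero_div k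
    omega
  have : Nonempty (Fin n × Fin n) := ⟨(⟨0, hn⟩, ⟨0, hn⟩)⟩
  choose! p hp using hex
  have h2 : ((Finset.range (n / k)).filter
      (fun j => ¬ WinPat n (1 : Perm (Fin k)) j σ)).card ≤ inv σ := by
    unfold inv
    refine Finset.card_le_card_of_injOn p ?_ ?_
    · intro j hj
      have := hp j hj
      simp only [Finset.coe_filter, Finset.mem_univ, true_and]
      exact this.1
    · intro j hj j' hj' hjj
      have h3 := (hp j hj).2
      have h4 := (hp j' hj').2
      rw [← hjj] at h4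
      by_contra hne
      rcases Nat.lt_or_ge j j' with h5 | h5
      · have : (j + 1) * k ≤ j' * k := Nat.mul_le_mul_right k h5
        have h6 : (j + 1) * k = j * k + k := by ring
        omega
      · have : (j' + 1) * k ≤ j * k := Nat.mul_le_mul_right k (by omega)
        have h6 : (j' + 1) * k = j' * k + k := by ring
        omega
  omega

/-! ### First and second moments -/

lemma moment_one {k n : ℕ} (π : Perm (Fin k)) (m : ℤ) :
    ∑ σ ∈ Finset.univ.filter (fun σ : Perm (Fin n) => (inv σ : ℤ) = m), (Nw n π σ : ℝ) =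
      ∑ j ∈ Finset.range (n / k), cntP n m (WinPat n π j) := by
  classical
  unfold Nw cntP
  have h1 : ∀ σ : Perm (Fin n),
      (((Finset.range (n / k)).filter (fun j => WinPat n π j σ)).card : ℝ) =
      ∑ j ∈ Finset.range (n / k), if WinPat n π j σ then (1 : ℝ) else 0 := by
    intro σ; rw [Finset.card_filter]; push_cast; rfl
  simp only [h1]
  rw [Finset.sum_comm]
  refine Finset.sum_congr rfl (fun j _ => ?_)
  rw [← Finset.sum_filter, Finset.sum_const, nsmul_eq_mul, mul_one, Finset.filter_filter]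
  congr 2
  ext σ
  simp only [Finset.mem_filter, Finset.mem_univ, true_and]
  exact and_comm

lemma moment_two {k n : ℕ} (π : Perm (Fin k)) (m : ℤ) :
    ∑ σ ∈ Finset.univ.filter (fun σ : Perm (Fin n) => (inv σ : ℤ) = m), (Nw n π σ : ℝ) ^ 2 =
      ∑ i ∈ Finset.range (n / k), ∑ j ∈ Finset.range (n / k),
        cntP n m (fun σ => WinPat n π i σ ∧ WinPat n π j σ) := by
  classical
  unfold Nw cntP
  have h1 : ∀ σ : Perm (Fin n),
      (((Finset.range (n / k)).filter (fun j => WinPat n π j σ)).card : ℝ) ^ 2 =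
      ∑ i ∈ Finset.range (n / k), ∑ j ∈ Finset.range (n / k),
        if (WinPat n π i σ ∧ WinPat n π j σ) then (1 : ℝ) else 0 := by
    intro σ
    rw [Finset.card_filter, sq]
    push_cast
    rw [Finset.sum_mul_sum]
    refine Finset.sum_congr rfl (fun i _ => Finset.sum_congr rfl (fun j _ => ?_))
    by_cases h1 : WinPat n π i σ <;> by_cases h2 : WinPat n π j σ <;> simp [h1, h2]
  simp only [h1]
  rw [Finset.sum_comm]
  refine Finset.sum_congr rfl (fun i _ => ?_)
  rw [Finset.sum_comm]
  refine Finset.sum_congr rfl (fun j _ => ?_)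
  rw [← Finset.sum_filter, Finset.sum_const, nsmul_eq_mul, mul_one, Finset.filter_filter]
  congr 2
  ext σ
  simp only [Finset.mem_filter, Finset.mem_univ, true_and]
  exact and_comm

/-- Lower bound for the first moment. -/
lemma moment_one_lower {k n m : ℕ} (π : Perm (Fin k)) :
    ((n / k : ℕ) - (m : ℝ)) * A n (m - inv π) ≤
      ∑ σ ∈ Finset.univ.filter (fun σ : Perm (Fin n) => (inv σ : ℤ) = m), (Nw n π σ : ℝ) := by
  classical
  rw [moment_one]
  have h1 : ∑ j ∈ Finset.range (n / k), cntP n m (WinPat n π j) =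
      ∑ σ ∈ Finset.univ.filter (fun σ : Perm (Fin n) => (inv σ : ℤ) = m - inv π),
        (Nw n (1 : Perm (Fin k)) σ : ℝ) := by
    rw [moment_one]
    refine Finset.sum_congr rfl (fun j hj => ?_)
    exact cnt_one (Finset.mem_range.mp hj) π m
  rw [h1]
  unfold A
  rw [mul_comm, ← nsmul_eq_mul, ← Finset.sum_const]
  refine Finset.sum_le_sum (fun σ hσ => ?_)
  have h2 : (inv σ : ℤ) = m - inv π := (Finset.mem_filter.mp hσ).2
  have h3 := sorted_many (k := k) σ
  have h4 : ((n / k : ℕ) : ℝ) ≤ (Nw n (1 : Perm (Fin k)) σ : ℝ) + (inv σ : ℝ) := by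
    exact_mod_cast h3
  have h5 : (inv σ : ℝ) ≤ m := by
    have : inv σ ≤ m := by omega
    exact_mod_cast this
  linarith

lemma moment_two_upper {k n m : ℕ} (π : Perm (Fin k)) :
    ∑ σ ∈ Finset.univ.filter (fun σ : Perm (Fin n) => (inv σ : ℤ) = m), (Nw n π σ : ℝ) ^ 2 ≤
      ((n / k : ℕ) : ℝ) * A n (m - inv π) + ((n / k : ℕ) : ℝ) ^ 2 * A n (m - 2 * inv π) := by
  classical
  rw [moment_two]
  have h1 : ∀ i ∈ Finset.range (n / k), ∀ j ∈ Finset.range (n / k),
      cntP n m (fun σ => WinPat n π i σ ∧ WinPat n π j σ) ≤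
        (if i = j then A n (m - inv π) else 0) + A n (m - 2 * inv π) := by
    intro i hi j hj
    by_cases hij : i = j
    · subst hij
      rw [if_pos rfl]
      have h2 : cntP n m (fun σ => WinPat n π i σ ∧ WinPat n π i σ) ≤ A n (m - inv π) := by
        have e : (fun σ => WinPat n π i σ ∧ WinPat n π i σ) = WinPat n π i := by
          funext σ; exact propext (and_self_iff)
        rw [e, cnt_one (Finset.mem_range.mp hi)]
        exact cntP_le_A _ _
      have := A_nonneg n (m - 2 * inv π)
      linarith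
    · rw [if_neg hij, zero_add]
      exact cnt_two (Finset.mem_range.mp hi) (Finset.mem_range.mp hj) hij π m
  calc _ ≤ ∑ i ∈ Finset.range (n / k), ∑ j ∈ Finset.range (n / k),
        ((if i = j then A n (m - inv π) else 0) + A n (m - 2 * inv π)) :=
        Finset.sum_le_sum (fun i hi => Finset.sum_le_sum (fun j hj => h1 i hi j hj))
    _ = ∑ i ∈ Finset.range (n / k), (A n (m - inv π) + (n / k : ℕ) * A n (m - 2 * inv π)) := by
        refine Finset.sum_congr rfl (fun i hi => ?_)
        rw [Finset.sum_add_distrib, Finset.sum_ite_eq, if_pos hi, Finset.sum_const,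
          Finset.card_range, nsmul_eq_mul]
    _ = _ := by
        rw [Finset.sum_const, Finset.card_range, nsmul_eq_mul]; ring

open Classical in
/-- The number of permutations with `m` inversions that contain `π` consecutively. -/
noncomputable def good {k : ℕ} (n : ℕ) (π : Perm (Fin k)) (m : ℕ) : ℝ :=
  ((Finset.univ.filter (fun σ : Perm (Fin n) =>
    inv σ = m ∧ ContainsConsecutive π σ)).card : ℝ)

lemma good_add_bad {k : ℕ} (n : ℕ) (π : Perm (Fin k)) (m : ℕ) :
    good n π m + bad n π m = A n m := by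
  classical
  unfold good bad A
  rw [← Nat.cast_add]
  congr 1
  rw [← Finset.filter_filter, ← Finset.filter_filter,
    Finset.card_filter_add_card_filter_not]
  congr 1
  ext σ
  simp only [Finset.mem_filter, Finset.mem_univ, true_and]
  exact ⟨fun h => by exact_mod_cast h, fun h => by exact_mod_cast h⟩

/-- Second moment bound. -/
lemma good_sparse {k n m : ℕ} (π : Perm (Fin k)) (hr : m ≤ n / k) (hms : inv π ≤ m)
    (hm : m ≤ n.choose 2) :
    (((n / k : ℕ) : ℝ) - m) ^ 2 * A n (m - inv π) * A n m ≤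
      good n π m * (((n / k : ℕ) : ℝ) ^ 2 * A n (m - inv π) + (n / k : ℕ) * A n m) := by
  classical
  set r : ℝ := ((n / k : ℕ) : ℝ) with hrdef
  have hrm : (m : ℝ) ≤ r := by rw [hrdef]; exact_mod_cast hr
  have hr0 : 0 ≤ r := by rw [hrdef]; positivity
  have hA0 : 0 < A n m := A_pos n m (by omega) (by exact_mod_cast hm)
  have hA1 : 0 < A n (m - inv π) := A_pos n _ (by omega) (by omega)
  have h1 := moment_one_lower (n := n) (m := m) π
  have h2 := moment_two_upper (n := n) (m := m) π
  rw [← hrdef] at h1 h2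
  set S := Finset.univ.filter (fun σ : Perm (Fin n) => (inv σ : ℤ) = m) with hS
  -- Cauchy–Schwarz on the permutations with at least one window
  set G := S.filter (fun σ => Nw n π σ ≠ 0) with hG
  have hsumG : ∑ σ ∈ S, (Nw n π σ : ℝ) = ∑ σ ∈ G, (Nw n π σ : ℝ) := by
    symm
    refine Finset.sum_filter_of_ne (fun σ _ h => ?_)
    intro h0
    apply h
    rw [h0]; simp
  have hCS : (∑ σ ∈ S, (Nw n π σ : ℝ)) ^ 2 ≤ (G.card : ℝ) * ∑ σ ∈ S, (Nw n π σ : ℝ) ^ 2 := by
    rw [hsumG]
    calc (∑ σ ∈ G, (Nw n π σ : ℝ)) ^ 2 ≤ (G.card : ℝ) * ∑ σ ∈ G, (Nw n π σ : ℝ) ^ 2 :=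
          sq_sum_le_card_mul_sum_sq
      _ ≤ _ := by
          refine mul_le_mul_of_nonneg_left ?_ (by positivity)
          exact Finset.sum_le_sum_of_subset_of_nonneg (Finset.filter_subset _ _)
            (fun _ _ _ => by positivity)
  have hGgood : (G.card : ℝ) ≤ good n π m := by
    unfold good
    have : G ⊆ Finset.univ.filter (fun σ : Perm (Fin n) =>
        inv σ = m ∧ ContainsConsecutive π σ) := by
      intro σ hσ
      rw [hG, hS] at hσ
      simp only [Finset.mem_filter, Finset.mem_univ, true_and] at hσ ⊢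
      refine ⟨by exact_mod_cast hσ.1, ?_⟩
      unfold Nw at hσ
      obtain ⟨j, hj⟩ := Finset.card_ne_zero.mp hσ.2
      rw [Finset.mem_filter] at hj
      obtain ⟨h, hp⟩ := hj.2
      exact ⟨_, h, hp⟩
    exact_mod_cast Finset.card_le_card this
  have hlc := A_LC n (m - 2 * inv π) (m - inv π) (m - inv π) m (by ring) (by omega) (by omega)
  have hgood0 : 0 ≤ good n π m := by unfold good; positivity
  have hlow : ((r - m) * A n (m - inv π)) ^ 2 ≤
      good n π m * (r * A n (m - inv π) + r ^ 2 * A n (m - 2 * inv π)) := by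
    calc ((r - m) * A n (m - inv π)) ^ 2 ≤ (∑ σ ∈ S, (Nw n π σ : ℝ)) ^ 2 := by
          refine pow_le_pow_left₀ (mul_nonneg (by linarith) hA1.le) h1 2
      _ ≤ (G.card : ℝ) * ∑ σ ∈ S, (Nw n π σ : ℝ) ^ 2 := hCS
      _ ≤ good n π m * (r * A n (m - inv π) + r ^ 2 * A n (m - 2 * inv π)) := by
          refine mul_le_mul hGgood h2 ?_ hgood0
          exact Finset.sum_nonneg (fun _ _ => by positivity)
  -- multiply by `A n m` and divide by `A n (m - s)`
  have hA2 := A_nonneg n (m - 2 * inv π)
  have h5 : ((r - m) ^ 2 * A n (m - inv π) * A n m) * A n (m - inv π) ≤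
      (good n π m * (r ^ 2 * A n (m - inv π) + r * A n m)) * A n (m - inv π) := by
    calc ((r - m) ^ 2 * A n (m - inv π) * A n m) * A n (m - inv π)
        = ((r - m) * A n (m - inv π)) ^ 2 * A n m := by ring
      _ ≤ (good n π m * (r * A n (m - inv π) + r ^ 2 * A n (m - 2 * inv π))) * A n m :=
          mul_le_mul_of_nonneg_right hlow hA0.le
      _ = good n π m * (r * A n (m - inv π) * A n m) +
            good n π m * r ^ 2 * (A n (m - 2 * inv π) * A n m) := by ring
      _ ≤ good n π m * (r * A n (m - inv π) * A n m) +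
            good n π m * r ^ 2 * (A n (m - inv π) * A n (m - inv π)) := by
          have := mul_le_mul_of_nonneg_left hlc (show 0 ≤ good n π m * r ^ 2 by positivity)
          linarith
      _ = _ := by ring
  exact le_of_mul_le_mul_right h5 hA1

/-- `A n (m - s) / A n m ≥ ((m-s+1)/(n+m))^s`, cleared of denominators. -/
lemma A_ratio_pow (n m : ℕ) (s : ℕ) (hs : s ≤ m) :
    ((m : ℝ) - s + 1) ^ s * A n m ≤ ((n : ℝ) + m) ^ s * A n (m - s) := by
  have key : ∀ i : ℕ, i ≤ s →
      ((m : ℝ) - s + 1) ^ i * A n m ≤ ((n : ℝ) + m) ^ i * A n (m - i) := by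
    intro i
    induction i with
    | zero => intro _; simp
    | succ i ih =>
      intro hi
      have h1 := ih (by omega)
      have h2 := A_ratio n (m - i)
      have hms : (s : ℝ) ≤ m := by exact_mod_cast hs
      have his : ((i : ℝ) + 1) ≤ s := by exact_mod_cast hi
      have h3 : ((m : ℝ) - s + 1) ≤ ((m - i : ℤ) : ℝ) := by push_cast; linarith
      have h4 : ((n : ℝ) + ((m - i : ℤ) : ℝ)) ≤ (n : ℝ) + m := by
        push_cast
        have : (0 : ℝ) ≤ i := by positivity
        linarith
      have hbase : (0 : ℝ) ≤ (m : ℝ) - s + 1 := by linarith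
      have hAi := A_nonneg n (m - i)
      have hAi1 := A_nonneg n (m - i - 1)
      have e : ((m : ℤ) - ((i + 1 : ℕ) : ℤ)) = m - i - 1 := by push_cast; ring
      rw [e]
      calc ((m : ℝ) - s + 1) ^ (i + 1) * A n m
          = ((m : ℝ) - s + 1) * (((m : ℝ) - s + 1) ^ i * A n m) := by ring
        _ ≤ ((m : ℝ) - s + 1) * (((n : ℝ) + m) ^ i * A n (m - i)) :=
            mul_le_mul_of_nonneg_left h1 hbase
        _ = ((n : ℝ) + m) ^ i * (((m : ℝ) - s + 1) * A n (m - i)) := by ring
        _ ≤ ((n : ℝ) + m) ^ i * (((n : ℝ) + m) * A n (m - i - 1)) := by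
            refine mul_le_mul_of_nonneg_left ?_ (by positivity)
            calc ((m : ℝ) - s + 1) * A n (m - i) ≤ ((m - i : ℤ) : ℝ) * A n (m - i) :=
                  mul_le_mul_of_nonneg_right h3 hAi
              _ ≤ ((n : ℝ) + ((m - i : ℤ) : ℝ)) * A n (m - i - 1) := h2
              _ ≤ ((n : ℝ) + m) * A n (m - i - 1) := mul_le_mul_of_nonneg_right h4 hAi1
        _ = _ := by ring
  exact key s le_rfl

end Pool.Agent.H.MP_aebd38_co
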