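import Mathlib
import Pool.Agent.H.MP_aebd38_co.Second

set_option autoImplicit false

namespace Pool.Agent.H.MP_aebd38_co

open Finset Equiv Filter

lemma eq_one_of_inv {k : ℕ} (π : Perm (Fin k)) (h : inv π = 0) : π = 1 := by
  apply perm_eq_of_lt_iff
  have key : ∀ x y : Fin k, x < y → π x < π y := by
    intro x y hxy
    by_contra hcon
    have hne : π y ≠ π x := fun h' => (ne_of_lt hxy) (π.injective h').symm
    have hlt : π y < π x := lt_of_le_of_ne (not_lt.mp hcon) hne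
    unfold inv at h
    rw [Finset.card_eq_zero, Finset.filter_eq_empty_iff] at h
    exact h (Finset.mem_univ (x, y)) ⟨hxy, hlt⟩
  intro x y
  simp only [Perm.one_apply]
  constructor
  · intro hlt
    rcases lt_trichotomy x y with h' | h' | h'
    · exact h'
    · subst h'; exact absurd hlt (lt_irrefl _)
    · exact absurd hlt (not_lt.mpr (key y x h').le)
  · exact key x y

/-- Exponential decay beats the quadratic prefactor. -/
lemma decay (k : ℕ) (hk : 1 ≤ k) (c : ℝ) (hc0 : 0 ≤ c) (hc1 : c < 1) (ε : ℝ) (hε : 0 < ε) :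
    ∃ N : ℕ, ∀ n ≥ N, ((n.choose 2 : ℕ) + 1 : ℝ) * c ^ (n / k) ≤ ε := by
  have h1 : Tendsto (fun r : ℕ => (r : ℝ) ^ 2 * c ^ r) atTop (nhds 0) :=
    tendsto_pow_const_mul_const_pow_of_abs_lt_one 2 (by rw [abs_of_nonneg hc0]; exact hc1)
  have hk0 : (0 : ℝ) < k := by exact_mod_cast hk
  have h2 : ∀ᶠ r : ℕ in atTop, (r : ℝ) ^ 2 * c ^ r < ε / (4 * k ^ 2) :=
    h1.eventually (gt_mem_nhds (by positivity))
  obtain ⟨R, hR⟩ := eventually_atTop.mp h2
  refine ⟨(R + 1) * k, fun n hn => ?_⟩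
  have hr : R + 1 ≤ n / k := by
    rw [Nat.le_div_iff_mul_le hk]; exact hn
  set r := n / k with hrdef
  have hr1 : (1 : ℝ) ≤ r := by exact_mod_cast (by omega : 1 ≤ r)
  have hnr : (n : ℝ) ≤ 2 * k * r := by
    have h3 : n < k * (r + 1) := by
      rw [hrdef]; exact Nat.lt_mul_div_succ n hk
    have h4 : (n : ℝ) ≤ k * (r + 1) := by exact_mod_cast h3.le
    nlinarith
  have hn1 : 1 ≤ n := by
    have : 1 ≤ (R + 1) * k := Nat.mul_pos (by omega) hk
    omega
  have hch : ((n.choose 2 : ℕ) + 1 : ℝ) ≤ (n : ℝ) ^ 2 := by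
    have h5 : n.choose 2 + 1 ≤ n ^ 2 := by
      rw [Nat.choose_two_right]
      obtain ⟨t, rfl⟩ : ∃ t, n = t + 1 := ⟨n - 1, by omega⟩
      have h6 : (t + 1) * (t + 1 - 1) / 2 ≤ (t + 1) * t := by
        simpa using Nat.div_le_self ((t + 1) * t) 2
      have h7 : (t + 1) ^ 2 = (t + 1) * t + (t + 1) := by ring
      omega
    exact_mod_cast h5
  have h8 := hR r (by omega)
  calc ((n.choose 2 : ℕ) + 1 : ℝ) * c ^ r ≤ (n : ℝ) ^ 2 * c ^ r :=
        mul_le_mul_of_nonneg_right hch (by positivity)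
    _ ≤ (2 * k * r) ^ 2 * c ^ r := by
        refine mul_le_mul_of_nonneg_right ?_ (by positivity)
        exact pow_le_pow_left₀ (by positivity) hnr 2
    _ = 4 * k ^ 2 * ((r : ℝ) ^ 2 * c ^ r) := by ring
    _ ≤ 4 * k ^ 2 * (ε / (4 * k ^ 2)) := mul_le_mul_of_nonneg_left h8.le (by positivity)
    _ = ε := by field_simp

lemma bad_zero {k n : ℕ} (π : Perm (Fin k)) (hπ : inv π = 0) (hr : 1 ≤ n / k) :
    bad n π 0 = 0 := by
  classical
  unfold bad
  rw [Nat.cast_eq_zero, Finset.card_eq_zero, Finset.filter_eq_empty_iff]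
  rintro σ _ ⟨h1, h2⟩
  apply h2
  have h3 := sorted_many (k := k) σ
  rw [h1] at h3
  have h4 : Nw n (1 : Perm (Fin k)) σ ≠ 0 := by omega
  unfold Nw at h4
  obtain ⟨j, hj⟩ := Finset.card_ne_zero.mp h4
  rw [Finset.mem_filter] at hj
  obtain ⟨h, hp⟩ := hj.2
  rw [eq_one_of_inv π hπ]
  exact ⟨_, h, hp⟩

lemma half_zero (k : ℕ) (hk : 1 ≤ k) (π : Perm (Fin k)) (hπ : inv π = 0) (ε : ℝ) (hε : 0 < ε) :
    ∃ N : ℕ, ∀ n ≥ N, ∀ m : ℕ, 2 * m ≤ n.choose 2 → bad n π m ≤ ε * A n m := by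
  have hf : (1 : ℝ) ≤ k.factorial := by exact_mod_cast Nat.factorial_pos k
  have hc0 : 0 ≤ 1 - 1 / (k.factorial : ℝ) := by
    have : 1 / (k.factorial : ℝ) ≤ 1 := by rw [div_le_one (by linarith)]; exact hf
    linarith
  have hc1 : 1 - 1 / (k.factorial : ℝ) < 1 := by
    have : 0 < 1 / (k.factorial : ℝ) := by positivity
    linarith
  obtain ⟨N, hN⟩ := decay k hk _ hc0 hc1 ε hε
  refine ⟨max N k, fun n hn m hm => ?_⟩
  have hr : 1 ≤ n / k := by
    rw [Nat.le_div_iff_mul_le hk]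
    have := le_max_right N k
    omega
  rcases Nat.eq_zero_or_pos m with h0 | h0
  · subst h0
    rw [bad_zero π hπ hr]
    exact mul_nonneg hε.le (A_nonneg _ _)
  · have h1 := bad_dense (n := n) π h0 hm
    rw [hπ, pow_zero] at h1
    refine h1.trans (mul_le_mul_of_nonneg_right ?_ (A_nonneg _ _))
    exact hN n (le_trans (le_max_left _ _) hn)

/-- Dense regime: `m ≥ δ (n/k)`. -/
lemma half_dense (k : ℕ) (hk : 1 ≤ k) (π : Perm (Fin k)) (δ : ℝ) (hδ : 0 < δ)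
    (ε : ℝ) (hε : 0 < ε) :
    ∃ N : ℕ, ∀ n ≥ N, ∀ m : ℕ, 1 ≤ m → 2 * m ≤ n.choose 2 → δ * (n / k : ℕ) ≤ m →
      bad n π m ≤ ε * A n m := by
  have hk0 : (0 : ℝ) < k := by exact_mod_cast hk
  have hf : (1 : ℝ) ≤ k.factorial := by exact_mod_cast Nat.factorial_pos k
  -- lower bound for the ratio `q`
  set q0 : ℝ := δ / (δ + 2 * k) with hq0
  have hq0pos : 0 < q0 := by positivity
  have hq0lt : q0 ≤ 1 := by
    rw [hq0, div_le_one (by positivity)]; linarith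
  set c : ℝ := 1 - q0 ^ inv π / k.factorial with hc
  have hc1 : c < 1 := by
    have : 0 < q0 ^ inv π / k.factorial := by positivity
    linarith
  have hc0 : 0 ≤ c := by
    have h1 : q0 ^ inv π ≤ 1 := pow_le_one₀ hq0pos.le hq0lt
    have : q0 ^ inv π / k.factorial ≤ 1 := by
      rw [div_le_one (by linarith)]; linarith
    linarith
  obtain ⟨N, hN⟩ := decay k hk c hc0 hc1 ε hε
  refine ⟨max N k, fun n hn m hm1 hm hδm => ?_⟩
  have hr : 1 ≤ n / k := by
    rw [Nat.le_div_iff_mul_le hk]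
    have := le_max_right N k
    omega
  have hA : 0 < A n m := A_pos n m (by omega) (by omega)
  have hm0 : (0 : ℝ) < m := by exact_mod_cast hm1
  -- `q ≥ m / (n + m) ≥ q0`
  have hq : q0 ≤ A n (m - 1 : ℤ) / A n m := by
    rw [le_div_iff₀ hA]
    have h1 := A_ratio n m
    have h2 : ((m : ℤ) : ℝ) = (m : ℝ) := by norm_cast
    rw [h2] at h1
    have hnr : (n : ℝ) ≤ 2 * k * (n / k : ℕ) := by
      have h3 : n < k * (n / k + 1) := Nat.lt_mul_div_succ n hk
      have h4 : (n : ℝ) ≤ k * ((n / k : ℕ) + 1) := by exact_mod_cast h3.le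
      have hr1 : (1 : ℝ) ≤ (n / k : ℕ) := by exact_mod_cast hr
      nlinarith
    have h5 : q0 * (n + m) ≤ m := by
      rw [hq0, div_mul_eq_mul_div, div_le_iff₀ (by positivity)]
      nlinarith
    have h6 : 0 < (n : ℝ) + m := by positivity
    have h7 : q0 * A n m * (n + m) ≤ A n (m - 1 : ℤ) * (n + m) := by
      calc q0 * A n m * (n + m) = (q0 * (n + m)) * A n m := by ring
        _ ≤ m * A n m := mul_le_mul_of_nonneg_right h5 hA.le
        _ ≤ (n + m) * A n (m - 1 : ℤ) := h1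
        _ = _ := by ring
    exact le_of_mul_le_mul_right h7 h6
  have hq1 : A n (m - 1 : ℤ) / A n m ≤ 1 := by
    rw [div_le_one hA]
    exact A_le_of_le_half n m (by omega)
  refine (bad_dense (n := n) π hm1 hm).trans (mul_le_mul_of_nonneg_right ?_ hA.le)
  refine le_trans ?_ (hN n (le_trans (le_max_left _ _) hn))
  refine mul_le_mul_of_nonneg_left ?_ (by positivity)
  refine pow_le_pow_left₀ ?_ ?_ _
  · have h1 : (A n (m - 1 : ℤ) / A n m) ^ inv π ≤ 1 := pow_le_one₀ (hq0pos.le.trans hq) hq1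
    have : (A n (m - 1 : ℤ) / A n m) ^ inv π / k.factorial ≤ 1 := by
      rw [div_le_one (by linarith)]; linarith
    linarith
  · have h1 : q0 ^ inv π ≤ (A n (m - 1 : ℤ) / A n m) ^ inv π :=
      pow_le_pow_left₀ hq0pos.le hq _
    have h2 : q0 ^ inv π / k.factorial ≤ (A n (m - 1 : ℤ) / A n m) ^ inv π / k.factorial :=
      div_le_div_of_nonneg_right h1 (by linarith)
    linarith

/-- Sparse regime: `m ≤ δ (n/k)`. -/
lemma half_sparse (k : ℕ) (hk : 1 ≤ k) (π : Perm (Fin k)) (hπ : inv π ≠ 0)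
    (ε : ℝ) (hε : 0 < ε) (hε1 : ε ≤ 1) :
    ∃ C : ℝ, 0 < C ∧ ∀ n ≥ k, ∀ m : ℕ, 2 * m ≤ n.choose 2 → (m : ℝ) ≤ ε / 4 * (n / k : ℕ) →
      C * (n : ℝ) ^ (1 - 1 / (inv π : ℝ)) ≤ m → bad n π m ≤ ε * A n m ∧ 1 ≤ m := by
  set s := inv π with hs
  have hs1 : 1 ≤ s := Nat.one_le_iff_ne_zero.mpr hπ
  have hs0 : (0 : ℝ) < s := by exact_mod_cast hs1
  have hs1' : (1 : ℝ) ≤ s := by exact_mod_cast hs1
  have hk0 : (0 : ℝ) < k := by exact_mod_cast hk
  set C : ℝ := max (2 * s) (2 * k * 4 ^ s * (4 / ε)) with hC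
  have hC0 : 0 < C := lt_of_lt_of_le (by positivity) (le_max_left _ _)
  refine ⟨C, hC0, fun n hn m hm hmr hCm => ?_⟩
  have hn1 : (1 : ℝ) ≤ n := by exact_mod_cast (by omega : 1 ≤ n)
  have hn0 : (0 : ℝ) < n := by linarith
  have hexp : 0 ≤ 1 - 1 / (s : ℝ) := by
    have : 1 / (s : ℝ) ≤ 1 := by rw [div_le_one hs0]; exact hs1'
    linarith
  have hpow1 : 1 ≤ (n : ℝ) ^ (1 - 1 / (s : ℝ)) := Real.one_le_rpow hn1 hexp
  have hm2s : 2 * (s : ℝ) ≤ m := by
    calc 2 * (s : ℝ) ≤ C := le_max_left _ _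
      _ ≤ C * (n : ℝ) ^ (1 - 1 / (s : ℝ)) := by nlinarith
      _ ≤ m := hCm
  have hm2s' : 2 * s ≤ m := by exact_mod_cast hm2s
  have hm1 : 1 ≤ m := by omega
  refine ⟨?_, hm1⟩
  have hr : 1 ≤ n / k := by
    rw [Nat.le_div_iff_mul_le hk]; omega
  set r : ℝ := ((n / k : ℕ) : ℝ) with hrdef
  have hr1 : (1 : ℝ) ≤ r := by rw [hrdef]; exact_mod_cast hr
  have hrn : r ≤ n := by rw [hrdef]; exact_mod_cast Nat.div_le_self n k
  have hmr' : (m : ℝ) ≤ r := by nlinarith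
  have hmrN : m ≤ n / k := by rw [hrdef] at hmr'; exact_mod_cast hmr'
  have hA : 0 < A n m := A_pos n m (by omega) (by omega)
  have hA1 : 0 < A n (m - s) := A_pos n _ (by omega) (by omega)
  have hsp := good_sparse (n := n) (m := m) π hmrN (by omega) (by omega)
  rw [← hs, ← hrdef] at hsp
  -- `r * x ≥ 4 / ε`, with `x = A (m - s) / A m`
  have hx : 4 / ε * A n m ≤ r * A n (m - s) := by
    have h1 := A_ratio_pow n m s (by omega)
    have hmpos : (0 : ℝ) ≤ m := by positivity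
    have h2 : (m : ℝ) / 2 ≤ (m : ℝ) - s + 1 := by linarith
    have h3 : (n : ℝ) + m ≤ 2 * n := by linarith
    have h4 : ((m : ℝ) / 2) ^ s * A n m ≤ (2 * n) ^ s * A n (m - s) := by
      calc ((m : ℝ) / 2) ^ s * A n m ≤ ((m : ℝ) - s + 1) ^ s * A n m :=
            mul_le_mul_of_nonneg_right (pow_le_pow_left₀ (by positivity) h2 _) hA.le
        _ ≤ ((n : ℝ) + m) ^ s * A n (m - s) := h1
        _ ≤ _ := mul_le_mul_of_nonneg_right (pow_le_pow_left₀ (by positivity) h3 _) hA1.le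
    have h5 : C ^ s * (n : ℝ) ^ (s - 1) ≤ (m : ℝ) ^ s := by
      have h6 : (C * (n : ℝ) ^ (1 - 1 / (s : ℝ))) ^ s ≤ (m : ℝ) ^ s :=
        pow_le_pow_left₀ (by positivity) hCm _
      have h7 : (C * (n : ℝ) ^ (1 - 1 / (s : ℝ))) ^ s = C ^ s * (n : ℝ) ^ (s - 1) := by
        rw [mul_pow]
        congr 1
        rw [← Real.rpow_natCast, ← Real.rpow_mul hn0.le, ← Real.rpow_natCast]
        congr 1
        rw [Nat.cast_sub hs1]
        push_cast
        field_simp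
      rwa [h7] at h6
    have hCs : C ≤ C ^ s := by
      have hC1 : 1 ≤ C := le_trans (by linarith) (le_max_left (2 * (s : ℝ)) _)
      calc C = C ^ 1 := (pow_one C).symm
        _ ≤ C ^ s := pow_le_pow_right₀ hC1 hs1
    have hC2 : 2 * k * 4 ^ s * (4 / ε) ≤ C := le_max_right _ _
    have hnr : (n : ℝ) ≤ 2 * k * r := by
      have h3 : n < k * (n / k + 1) := Nat.lt_mul_div_succ n hk
      have h4 : (n : ℝ) ≤ k * ((n / k : ℕ) + 1) := by exact_mod_cast h3.le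
      rw [← hrdef] at h4
      nlinarith
    -- combine
    have h8 : (2 * k * 4 ^ s * (4 / ε)) * (n : ℝ) ^ (s - 1) * A n m ≤
        4 ^ s * (n : ℝ) ^ s * A n (m - s) := by
      have h9 : (m : ℝ) ^ s * A n m ≤ 4 ^ s * (n : ℝ) ^ s * A n (m - s) := by
        have e1 : ((m : ℝ) / 2) ^ s * A n m * 2 ^ s = (m : ℝ) ^ s * A n m := by
          rw [div_pow]; field_simp
        have e2 : (2 * (n : ℝ)) ^ s * A n (m - s) * 2 ^ s =
            4 ^ s * (n : ℝ) ^ s * A n (m - s) := by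
          have : (4 : ℝ) ^ s = 2 ^ s * 2 ^ s := by rw [← mul_pow]; norm_num
          rw [mul_pow, this]; ring
        rw [← e1, ← e2]
        exact mul_le_mul_of_nonneg_right h4 (by positivity)
      calc (2 * k * 4 ^ s * (4 / ε)) * (n : ℝ) ^ (s - 1) * A n m
          ≤ C ^ s * (n : ℝ) ^ (s - 1) * A n m := by
            refine mul_le_mul_of_nonneg_right ?_ hA.le
            exact mul_le_mul_of_nonneg_right (hC2.trans hCs) (by positivity)
        _ ≤ (m : ℝ) ^ s * A n m := mul_le_mul_of_nonneg_right h5 hA.le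
        _ ≤ _ := h9
    have e3 : (n : ℝ) ^ s = (n : ℝ) ^ (s - 1) * n := by
      rw [← pow_succ]; congr 1; omega
    have h10 : (4 / ε * A n m) * (2 * k * (4 ^ s * (n : ℝ) ^ (s - 1))) ≤
        (r * A n (m - s)) * (2 * k * (4 ^ s * (n : ℝ) ^ (s - 1))) := by
      calc (4 / ε * A n m) * (2 * k * (4 ^ s * (n : ℝ) ^ (s - 1)))
          = (2 * k * 4 ^ s * (4 / ε)) * (n : ℝ) ^ (s - 1) * A n m := by ring
        _ ≤ 4 ^ s * (n : ℝ) ^ s * A n (m - s) := h8
        _ = 4 ^ s * (n : ℝ) ^ (s - 1) * A n (m - s) * n := by rw [e3]; ring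
        _ ≤ 4 ^ s * (n : ℝ) ^ (s - 1) * A n (m - s) * (2 * k * r) :=
            mul_le_mul_of_nonneg_left hnr (by positivity)
        _ = _ := by ring
    exact le_of_mul_le_mul_right h10 (by positivity)
  -- conclude
  have hgb := good_add_bad n π m
  set G := good n π m with hGdef
  set a := A n m with ha
  set b := A n (m - s) with hb
  have hG0 : 0 ≤ G := by rw [hGdef]; unfold good; positivity
  have hεb : a ≤ ε / 4 * (r * b) := by
    have : ε / 4 * (4 / ε * a) = a := by field_simp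
    calc a = ε / 4 * (4 / ε * a) := this.symm
      _ ≤ ε / 4 * (r * b) := mul_le_mul_of_nonneg_left hx (by positivity)
  have h11 : G * (r ^ 2 * b + r * a) ≤ G * ((1 + ε / 4) * (r ^ 2 * b)) := by
    refine mul_le_mul_of_nonneg_left ?_ hG0
    have : r * a ≤ ε / 4 * (r ^ 2 * b) := by
      calc r * a ≤ r * (ε / 4 * (r * b)) := mul_le_mul_of_nonneg_left hεb (by linarith)
        _ = _ := by ring
    linarith
  have h12 : (1 - ε / 4) ^ 2 * r ^ 2 ≤ (r - m) ^ 2 := by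
    have h13 : (1 - ε / 4) * r ≤ r - m := by linarith
    have h14 : 0 ≤ (1 - ε / 4) * r := mul_nonneg (by linarith) (by linarith)
    calc (1 - ε / 4) ^ 2 * r ^ 2 = ((1 - ε / 4) * r) ^ 2 := by ring
      _ ≤ (r - m) ^ 2 := pow_le_pow_left₀ h14 h13 2
  have h15 : ((1 - ε / 4) ^ 2 * a) * (r ^ 2 * b) ≤ (G * (1 + ε / 4)) * (r ^ 2 * b) := by
    calc ((1 - ε / 4) ^ 2 * a) * (r ^ 2 * b) = ((1 - ε / 4) ^ 2 * r ^ 2) * (b * a) := by ring
      _ ≤ (r - m) ^ 2 * (b * a) := mul_le_mul_of_nonneg_right h12 (by positivity)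
      _ = (r - m) ^ 2 * b * a := by ring
      _ ≤ G * (r ^ 2 * b + r * a) := hsp
      _ ≤ G * ((1 + ε / 4) * (r ^ 2 * b)) := h11
      _ = _ := by ring
  have h16 : (1 - ε / 4) ^ 2 * a ≤ G * (1 + ε / 4) :=
    le_of_mul_le_mul_right h15 (by positivity)
  -- `(1-ε/4)^2 / (1+ε/4) ≥ 1 - ε`
  have h17 : (1 - ε) * a ≤ G := by
    have h18 : (1 - ε) * (1 + ε / 4) ≤ (1 - ε / 4) ^ 2 := by nlinarith
    have h19 : ((1 - ε) * a) * (1 + ε / 4) ≤ G * (1 + ε / 4) := by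
      calc ((1 - ε) * a) * (1 + ε / 4) = ((1 - ε) * (1 + ε / 4)) * a := by ring
        _ ≤ (1 - ε / 4) ^ 2 * a := mul_le_mul_of_nonneg_right h18 hA.le
        _ ≤ _ := h16
    exact le_of_mul_le_mul_right h19 (by linarith)
  linarith

/-- The statement for `m` at most half of the maximum. -/
lemma half (k : ℕ) (hk : 1 ≤ k) (π : Perm (Fin k)) (ε : ℝ) (hε : 0 < ε) (hε1 : ε ≤ 1) :
    ∃ (C : ℝ) (N : ℕ), 0 < C ∧ ∀ n ≥ N, ∀ m : ℕ, 2 * m ≤ n.choose 2 →
      (inv π ≠ 0 → C * (n : ℝ) ^ (1 - 1 / (inv π : ℝ)) ≤ m) → bad n π m ≤ ε * A n m := by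
  by_cases hπ : inv π = 0
  · obtain ⟨N, hN⟩ := half_zero k hk π hπ ε hε
    exact ⟨1, N, one_pos, fun n hn m hm _ => hN n hn m hm⟩
  · obtain ⟨C, hC0, hC⟩ := half_sparse k hk π hπ ε hε hε1
    obtain ⟨N, hN⟩ := half_dense k hk π (ε / 4) (by positivity) ε hε
    refine ⟨C, max (max N k) 1, hC0, fun n hn m hm hcond => ?_⟩
    have hnN : N ≤ n := le_trans (le_trans (le_max_left _ _) (le_max_left _ _)) hn
    have hnk : k ≤ n := le_trans (le_trans (le_max_right _ _) (le_max_left _ _)) hn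
    have hn1 : 1 ≤ n := le_trans (le_max_right _ _) hn
    rcases le_total (m : ℝ) (ε / 4 * (n / k : ℕ)) with h | h
    · exact (hC n hnk m hm h (hcond hπ)).1
    · refine hN n hnN m ?_ hm h
      have h2 := hcond hπ
      have h3 : 0 < C * (n : ℝ) ^ (1 - 1 / (inv π : ℝ)) := by
        have : (0 : ℝ) < n := by exact_mod_cast hn1
        positivity
      have h4 : (0 : ℝ) < m := lt_of_lt_of_le h3 h2
      exact_mod_cast h4

end Pool.Agent.H.MP_aebd38_co
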